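import Pool.Agent.Helper83_S1S3.Stmts

set_option autoImplicit false

namespace Pool.Agent.S1S3

theorem alg_key {G : Type} [AddCommGroup G] (T : G ≃+ G) (w : G →+ (ZMod 6 → ℤ))
    (α : ZMod 6 → G) (c : ℤ) (hc : c ≠ 0)
    (htf : ∀ (n : ℤ) (x : G), n ≠ 0 → n • x = 0 → x = 0)
    (h3 : ∀ f j, w f (j + 3) = - w f j) (h2 : ∀ f, w f 0 + w f 2 + w f 4 = 0)
    (hT : ∀ j, T (α j) = α (j + 1)) (ha3 : ∀ j, α j + α (j + 3) = 0)
    (ha2 : α 0 + α 2 + α 4 = 0)
    (hgen : ∀ f, w f = 0 → ∃ a b : ℤ, f = a • α 0 + b • α 2)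
    (hind : ∀ a b : ℤ, a • α 0 + b • α 2 = 0 → a = 0 ∧ b = 0)
    (h6 : ∀ f, T (T (T (T (T (T f))))) = f + ∑ j : ZMod 6, (c * w f j) • α j)
    (M : AddSubgroup G) (hM : ∀ x ∈ M, T (T x) ∈ M) (hne : M ≠ ⊥) :
    ∃ q : ℤ, q ≠ 0 ∧ q • α 0 ∈ M := by
  have hα4 : α 4 = -(α 0) - α 2 := by
    have : α 4 = (α 0 + α 2 + α 4) - α 0 - α 2 := by abel
    rw [this, ha2]; abel
  -- a nonzero element of M in the span
  obtain ⟨a, b, hab, hmem⟩ : ∃ a b : ℤ, ¬ (a = 0 ∧ b = 0) ∧ a • α 0 + b • α 2 ∈ M := by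
    obtain ⟨⟨x, hx⟩, hx0'⟩ := AddSubgroup.ne_bot_iff_exists_ne_zero.1 hne
    have hx0 : x ≠ 0 := fun h => hx0' (Subtype.ext h)
    by_cases hw : w x = 0
    · obtain ⟨a, b, h⟩ := hgen x hw
      refine ⟨a, b, ?_, h ▸ hx⟩
      rintro ⟨rfl, rfl⟩
      apply hx0
      rw [h]; simp
    · have hx6 : T (T (T (T (T (T x))))) ∈ M := hM _ (hM _ (hM _ hx))
      have hs : ∑ j : ZMod 6, (c * w x j) • α j ∈ M := by
        have := M.sub_mem hx6 hx
        rw [h6 x, add_sub_cancel_left] at this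
        exact this
      have hsum : ∑ j : ZMod 6, (c * w x j) • α j =
          (2 * c * (2 * w x 0 + w x 2)) • α 0 + (2 * c * (w x 0 + 2 * w x 2)) • α 2 := by
        have e : ∑ j : ZMod 6, (c * w x j) • α j =
          (c * w x 0) • α 0 + (c * w x 1) • α 1 + (c * w x 2) • α 2 + (c * w x 3) • α 3 +
            (c * w x 4) • α 4 + (c * w x 5) • α 5 := Fin.sum_univ_six _
        have w3 : w x 3 = - w x 0 := by have := h3 x 0; rwa [zero_add] at this
        have w5 : w x 5 = - w x 2 := h3 x 2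
        have w1 : w x 1 = - w x 4 := h3 x 4
        have w4 : w x 4 = - w x 0 - w x 2 := by have := h2 x; linarith
        have a3 : α 3 = - α 0 := by
          have := ha3 0; rw [zero_add] at this
          exact eq_neg_of_add_eq_zero_right this
        have a5 : α 5 = - α 2 := eq_neg_of_add_eq_zero_right (ha3 2)
        have a1 : α 1 = - α 4 := eq_neg_of_add_eq_zero_right (ha3 4)
        rw [e, w1, w3, w5, w4, a3, a5, a1, hα4]
        module
      rw [hsum] at hs
      refine ⟨_, _, ?_, hs⟩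
      rintro ⟨e1, e2⟩
      have e1' : 2 * w x 0 + w x 2 = 0 := by
        rcases mul_eq_zero.1 e1 with h | h
        · exfalso; omega
        · exact h
      have e2' : w x 0 + 2 * w x 2 = 0 := by
        rcases mul_eq_zero.1 e2 with h | h
        · exfalso; omega
        · exact h
      have w0 : w x 0 = 0 := by linarith
      have w2 : w x 2 = 0 := by linarith
      apply hw
      funext j
      have w3 : w x 3 = - w x 0 := by have := h3 x 0; rwa [zero_add] at this
      have w5 : w x 5 = - w x 2 := h3 x 2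
      have w1 : w x 1 = - w x 4 := h3 x 4
      have w4 : w x 4 = - w x 0 - w x 2 := by have := h2 x; linarith
      fin_cases j
      · exact w0
      · show w x 1 = 0
        rw [w1, w4, w0, w2]; rfl
      · exact w2
      · show w x 3 = 0
        rw [w3, w0]; rfl
      · show w x 4 = 0
        rw [w4, w0, w2]; rfl
      · show w x 5 = 0
        rw [w5, w2]; rfl
  have hT2 : T (T (a • α 0 + b • α 2)) = (-b) • α 0 + (a - b) • α 2 := by
    have e0 : T (T (α 0)) = α 2 := by rw [hT, hT]; rfl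
    have e2 : T (T (α 2)) = α 4 := by rw [hT, hT]; rfl
    rw [map_add, map_add, map_zsmul, map_zsmul, map_zsmul, map_zsmul, e0, e2, hα4]
    module
  have hmem2 := hM _ hmem
  rw [hT2] at hmem2
  refine ⟨a * a - a * b + b * b, ?_, ?_⟩
  · intro h0
    apply hab
    have h1 : (2 * a - b) ^ 2 + 3 * b ^ 2 = 0 := by linear_combination 4 * h0
    have hb : b = 0 := by
      by_contra hb
      have : 0 < b ^ 2 := by positivity
      nlinarith [sq_nonneg (2 * a - b)]
    subst hb
    refine ⟨?_, rfl⟩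
    have : a * a = 0 := by linarith
    simpa using this
  · have := M.sub_mem (M.zsmul_mem hmem (a - b)) (M.zsmul_mem hmem2 b)
    convert this using 1
    module

theorem alg : AlgStatement := by
  intro G _ T w α c hc htf _ h3 h2 _ hT ha3 ha2 hgen hind h6 M M' hMM hM hM'
  by_contra hcon
  push Not at hcon
  have hne : M ≠ ⊥ := by
    rintro rfl
    exact hcon.2 (by simpa using hMM.sup_eq_top)
  have hne' : M' ≠ ⊥ := by
    rintro rfl
    exact hcon.1 (by simpa using hMM.sup_eq_top)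
  obtain ⟨q, hq, hqM⟩ := alg_key T w α c hc htf h3 h2 hT ha3 ha2 hgen hind h6 M hM hne
  obtain ⟨q', hq', hqM'⟩ := alg_key T w α c hc htf h3 h2 hT ha3 ha2 hgen hind h6 M' hM' hne'
  have h1 : (q * q') • α 0 ∈ M := by
    have := M.zsmul_mem hqM q'
    rwa [smul_smul, mul_comm] at this
  have h1' : (q * q') • α 0 ∈ M' := by
    have := M'.zsmul_mem hqM' q
    rwa [smul_smul] at this
  have h0 : (q * q') • α 0 = 0 := by
    have := hMM.inf_eq_bot
    have hm : (q * q') • α 0 ∈ M ⊓ M' := ⟨h1, h1'⟩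
    rw [this] at hm
    exact (AddSubgroup.mem_bot).1 hm
  have := htf (q * q') (α 0) (mul_ne_zero hq hq') h0
  have h2 := hind 1 0 (by rw [this]; simp)
  exact one_ne_zero h2.1

end Pool.Agent.S1S3
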