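import Pool.Agent.Helper69_S1S3.Spl

/-!
# Module CSPLIT
-/

set_option autoImplicit false

open Set Topology

noncomputable section

namespace Pool.Agent.S1S3

theorem spl_unit : Spl Unit := by
  intro U V _ _ _ f _
  exact ⟨f, fun _ => 1, continuous_of_discreteTopology.continuousOn, continuousOn_const,
    fun x _ => by simp⟩

/-- the interval `[-1, 1]` -/
abbrev JJ : Type := Icc (-1 : ℝ) 1

theorem neg_one_le_one' : (-1 : ℝ) ≤ 1 := by norm_num

/-- the retraction to the interval -/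
def prJ : C(ℝ, JJ) := ⟨projIcc (-1) 1 neg_one_le_one', continuous_projIcc⟩

theorem prJ_coe (x : JJ) : prJ x = x := projIcc_val neg_one_le_one' x

theorem liftP_unit : LiftP Unit :=
  liftP_retract (X := ℝ) ⟨fun _ => 0, continuous_const⟩ ⟨fun _ => (), continuous_const⟩
    (fun _ => rfl) (liftP_vector ℝ)

theorem liftP_J : LiftP JJ :=
  liftP_retract (X := ℝ) ⟨Subtype.val, continuous_subtype_val⟩ prJ prJ_coe (liftP_vector ℝ)

theorem spl_J : Spl JJ :=
  spl_retract (X := ℝ × Unit) ⟨fun x => ((x : ℝ), ()), by fun_prop⟩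
    ⟨fun x => prJ x.1, by fun_prop⟩ (fun x => prJ_coe x)
    (spl_line spl_unit (isExp_of_liftP liftP_unit))

theorem liftP_JJ : LiftP (JJ × JJ) :=
  liftP_retract (X := ℝ × ℝ) ⟨fun x => ((x.1 : ℝ), (x.2 : ℝ)), by fun_prop⟩
    ⟨fun x => (prJ x.1, prJ x.2), by fun_prop⟩
    (fun x => Prod.ext (prJ_coe x.1) (prJ_coe x.2)) (liftP_vector (ℝ × ℝ))

theorem spl_JJ : Spl (JJ × JJ) :=
  spl_retract (X := ℝ × JJ) ⟨fun x => ((x.1 : ℝ), x.2), by fun_prop⟩
    ⟨fun x => (prJ x.1, x.2), by fun_prop⟩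
    (fun x => Prod.ext (prJ_coe x.1) rfl)
    (spl_line spl_J (isExp_of_liftP liftP_J))

theorem abs_coord_le {n : ℕ} (x : Sn n) (i : Fin (n + 1)) : (x : Eu (n + 1)) i ∈ Icc (-1 : ℝ) 1 := by
  have h : |(x : Eu (n + 1)) i| ≤ 1 := by
    have := PiLp.norm_apply_le (x : Eu (n + 1)) i
    rwa [norm_eq_of_mem_sphere, Real.norm_eq_abs] at this
  exact abs_le.1 h

theorem spl_hemi (ε : ℝ) (hε : ε ^ 2 = 1) : Spl (hemi 3 ε) := by
  refine spl_retract (X := ℝ × (JJ × JJ))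
    ⟨fun x => ((x : Eu 4) 1, (⟨(x : Eu 4) 2, abs_coord_le x.1 2⟩,
      ⟨(x : Eu 4) 3, abs_coord_le x.1 3⟩)), by fun_prop⟩
    ((hemiR 3 ε hε).comp ⟨fun q : ℝ × (JJ × JJ) =>
      (WithLp.toLp 2 ![q.1, (q.2.1 : ℝ), (q.2.2 : ℝ)] : Eu 3), ?_⟩) ?_
    (spl_line spl_JJ (isExp_of_liftP liftP_JJ))
  · refine (PiLp.continuous_toLp 2 _).comp (continuous_pi fun i => ?_)
    fin_cases i
    · exact continuous_fst
    · show Continuous fun q : ℝ × (JJ × JJ) => (q.2.1 : ℝ)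
      fun_prop
    · show Continuous fun q : ℝ × (JJ × JJ) => (q.2.2 : ℝ)
      fun_prop
  · intro x
    refine Eq.trans ?_ (hemiR_hemiI 3 ε hε x)
    show hemiR 3 ε hε _ = hemiR 3 ε hε _
    congr 1
    ext i
    fin_cases i <;> rfl

/-- the inclusion of the equator -/
def eqR (n : ℕ) : C(Sn n, ↥(hemi (n + 1) 1 ∩ hemi (n + 1) (-1))) :=
  ⟨fun x => ⟨eqI n x, by rw [hemi_inter, ← range_eqI]; exact mem_range_self x⟩, by fun_prop⟩

theorem tail_equator_mem {n : ℕ} {x : Sn (n + 1)} (h : (x : Eu (n + 2)) 0 = 0) :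
    tail1 (x : Eu (n + 2)) ∈ Metric.sphere (0 : Eu (n + 1)) 1 := by
  rw [mem_sphere_zero_iff_norm]
  have := norm_sq_tail1 (x : Eu (n + 2))
  rw [h, norm_eq_of_mem_sphere] at this
  have h3 := norm_nonneg (tail1 (x : Eu (n + 2)))
  nlinarith

theorem equator_zero {n : ℕ} {x : Sn (n + 1)} (h : x ∈ hemi (n + 1) 1 ∩ hemi (n + 1) (-1)) :
    (x : Eu (n + 2)) 0 = 0 := by
  rw [hemi_inter] at h
  exact h

theorem liftP_equator (n : ℕ) (h : LiftP (Sn n)) :
    LiftP ↥(hemi (n + 1) 1 ∩ hemi (n + 1) (-1)) :=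
  liftP_retract ⟨fun x => ⟨tail1 (x : Eu (n + 2)), tail_equator_mem (equator_zero x.2)⟩,
    by fun_prop⟩ (eqR n) (fun x => by
      apply Subtype.ext
      apply Subtype.ext
      show consE 0 (tail1 (x : Eu (n + 2))) = _
      rw [← equator_zero x.2, consE_tail1]) h

theorem spl_S3 : Spl (Sn 3) := by
  intro U V hU hV hUV f hf
  rw [← hemi_union 3]
  apply splOn_union hU hV hUV (isClosed_hemi _ _) (isClosed_hemi _ _)
  · exact expOn_of (isExp_of_liftP (liftP_equator 2 (liftP_Sn 1 one_ne_zero)))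
  · exact splOn_of_spl (spl_hemi 1 (by norm_num)) hU hV hUV hf
  · exact splOn_of_spl (spl_hemi (-1) (by norm_num)) hU hV hUV hf

theorem spl_XT : Spl XT := spl_line spl_S3 (isExp_of_liftP (liftP_Sn 2 two_ne_zero))

/-- module CSPLIT -/
theorem csplit : CSplitStatement where
  simple := isExp_of_liftP liftP_XT
  split := by
    intro U V hU hV hUV f
    obtain ⟨f', h1, h2⟩ := continuousOn_ext (f : ↥(U ∩ V) → Circle) 1 (S := univ)
      f.continuous.continuousOn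
    rw [image_univ, Subtype.range_coe] at h1
    obtain ⟨g, h, g1, hh1, e⟩ := spl_XT U V hU hV hUV f' h1
    rw [inter_univ] at g1 hh1
    refine ⟨⟨U.restrict g, continuousOn_iff_continuous_restrict.1 g1⟩,
      ⟨V.restrict h, continuousOn_iff_continuous_restrict.1 hh1⟩, fun x hx => ?_⟩
    rw [← show f' x = f ⟨x, hx⟩ from h2 ⟨x, hx⟩]
    exact e x ⟨hx, trivial⟩

end Pool.Agent.S1S3
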