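import Pool.Agent.Helper83_S1S3.Defs

/-!
# Lifting through coverings: vector spaces, retracts, unions; spheres of dimension at least two
-/

set_option autoImplicit false

open Set Topology

noncomputable section

namespace Pool.Agent.S1S3

/-- every map from `X` lifts through every covering, with prescribed value at a point -/
def LiftP (X : Type) [TopologicalSpace X] : Prop :=
  ∀ (E Y : Type) [TopologicalSpace E] [TopologicalSpace Y] (p : E → Y), IsCoveringMap p →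
    ∀ (f : C(X, Y)) (x₀ : X) (e₀ : E), p e₀ = f x₀ → ∃ F : C(X, E), F x₀ = e₀ ∧ ∀ x, p (F x) = f x

theorem liftP_vector (V : Type) [NormedAddCommGroup V] [NormedSpace ℝ V] : LiftP V := by
  intro E Y _ _ p hp f x₀ e₀ he
  obtain ⟨F, ⟨h1, h2⟩, -⟩ := hp.existsUnique_continuousMap_lifts f x₀ e₀ he
  exact ⟨F, h1, fun x => congrFun h2 x⟩

theorem liftP_retract {X A : Type} [TopologicalSpace X] [TopologicalSpace A] (i : C(A, X))
    (r : C(X, A)) (h : ∀ a, r (i a) = a) (hX : LiftP X) : LiftP A := by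
  intro E Y _ _ p hp f a₀ e₀ he
  obtain ⟨F, h1, h2⟩ := hX E Y p hp (f.comp r) (i a₀) e₀ (by simp [h, he])
  exact ⟨F.comp i, h1, fun a => by simp [h2, h]⟩

/-- gluing of two continuous maps on closed subsets -/
theorem glue_closed {X Y : Type} [TopologicalSpace X] [TopologicalSpace Y] {A B : Set X}
    (hA : IsClosed A) (hB : IsClosed B) (hAB : A ∪ B = univ) (f : C(A, Y)) (g : C(B, Y))
    (h : ∀ (x : X) (ha : x ∈ A) (hb : x ∈ B), f ⟨x, ha⟩ = g ⟨x, hb⟩) :
    ∃ F : C(X, Y), (∀ (x : X) (ha : x ∈ A), F x = f ⟨x, ha⟩) ∧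
      ∀ (x : X) (hb : x ∈ B), F x = g ⟨x, hb⟩ := by
  classical
  have hB' : ∀ x, x ∉ A → x ∈ B := fun x hx => by
    have : x ∈ A ∪ B := by rw [hAB]; trivial
    exact this.resolve_left hx
  let G : X → Y := fun x => if hx : x ∈ A then f ⟨x, hx⟩ else g ⟨x, hB' x hx⟩
  have hGA : ∀ (x : X) (ha : x ∈ A), G x = f ⟨x, ha⟩ := fun x ha => by simp [G, ha]
  have hGB : ∀ (x : X) (hb : x ∈ B), G x = g ⟨x, hb⟩ := fun x hb => by
    by_cases ha : x ∈ A
    · rw [hGA x ha, h x ha hb]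
    · simp [G, ha]
  have c1 : ContinuousOn G A := by
    rw [continuousOn_iff_continuous_restrict]
    convert f.continuous using 1
    funext x
    exact hGA x x.2
  have c2 : ContinuousOn G B := by
    rw [continuousOn_iff_continuous_restrict]
    convert g.continuous using 1
    funext x
    exact hGB x x.2
  have c3 := c1.union_of_isClosed c2 hA hB
  rw [hAB, continuousOn_univ] at c3
  exact ⟨⟨G, c3⟩, hGA, hGB⟩

theorem liftP_union_aux {X : Type} [TopologicalSpace X] {A B : Set X} (hA : IsClosed A)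
    (hB : IsClosed B) (hAB : A ∪ B = univ) (hc : IsPreconnected (A ∩ B)) (hne : (A ∩ B).Nonempty)
    (lA : LiftP A) (lB : LiftP B) :
    ∀ (E Y : Type) [TopologicalSpace E] [TopologicalSpace Y] (p : E → Y), IsCoveringMap p →
    ∀ (f : C(X, Y)) (x₀ : X) (e₀ : E), x₀ ∈ A → p e₀ = f x₀ →
      ∃ F : C(X, E), F x₀ = e₀ ∧ ∀ x, p (F x) = f x := by
  intro E Y _ _ p hp f x₀ e₀ hx₀ he
  obtain ⟨y₀, hy⟩ := hne
  obtain ⟨FA, hFA, hFA'⟩ := lA E Y p hp (f.comp ⟨Subtype.val, continuous_subtype_val⟩)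
    ⟨x₀, hx₀⟩ e₀ he
  obtain ⟨FB, hFB, hFB'⟩ := lB E Y p hp (f.comp ⟨Subtype.val, continuous_subtype_val⟩)
    ⟨y₀, hy.2⟩ (FA ⟨y₀, hy.1⟩) (hFA' _)
  have : PreconnectedSpace ↥(A ∩ B) := Subtype.preconnectedSpace hc
  have key : (fun x : ↥(A ∩ B) => FA ⟨x, x.2.1⟩) = fun x : ↥(A ∩ B) => FB ⟨x, x.2.2⟩ := by
    apply hp.eq_of_comp_eq (A := ↥(A ∩ B)) ?_ ?_ ?_ ⟨y₀, hy⟩ ?_
    · exact FA.continuous.comp (by fun_prop)
    · exact FB.continuous.comp (by fun_prop)
    · funext x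
      show p (FA _) = p (FB _)
      rw [hFA', hFB']
      rfl
    · exact hFB.symm
  obtain ⟨F, hF1, hF2⟩ := glue_closed hA hB hAB FA FB
    (fun x ha hb => congrFun key ⟨x, ha, hb⟩)
  refine ⟨F, by rw [hF1 x₀ hx₀, hFA], fun x => ?_⟩
  have hx : x ∈ A ∪ B := by rw [hAB]; trivial
  rcases hx with hx | hx
  · rw [hF1 x hx, hFA']; rfl
  · rw [hF2 x hx, hFB']; rfl

theorem liftP_union {X : Type} [TopologicalSpace X] {A B : Set X} (hA : IsClosed A)
    (hB : IsClosed B) (hAB : A ∪ B = univ) (hc : IsPreconnected (A ∩ B)) (hne : (A ∩ B).Nonempty)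
    (lA : LiftP A) (lB : LiftP B) : LiftP X := by
  intro E Y _ _ p hp f x₀ e₀ he
  have hx : x₀ ∈ A ∪ B := by rw [hAB]; trivial
  rcases hx with hx | hx
  · exact liftP_union_aux hA hB hAB hc hne lA lB E Y p hp f x₀ e₀ hx he
  · exact liftP_union_aux hB hA (by rw [union_comm, hAB]) (by rwa [inter_comm])
      (by rwa [inter_comm]) lB lA E Y p hp f x₀ e₀ hx he

/-- the product with a line -/
theorem liftP_line {Z : Type} [TopologicalSpace Z] (hZ : LiftP Z) : LiftP (ℝ × Z) := by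
  intro E Y _ _ p hp f x₀ e₀ he
  obtain ⟨t₀, z₀⟩ := x₀
  obtain ⟨F₀, h1, h2⟩ := hZ E Y p hp (f.comp ⟨fun z => (t₀, z), by fun_prop⟩) z₀ e₀ he
  let H : C(unitInterval × (ℝ × Z), Y) :=
    f.comp ⟨fun q => (t₀ + (q.1 : ℝ) * (q.2.1 - t₀), q.2.2), by fun_prop⟩
  have H0 : ∀ a : ℝ × Z, H (0, a) = p ((F₀.comp ⟨Prod.snd, continuous_snd⟩) a) := by
    intro a
    show f _ = p (F₀ a.2)
    rw [h2]
    simp
  let K := hp.liftHomotopy H (F₀.comp ⟨Prod.snd, continuous_snd⟩) H0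
  have hK : ∀ q, p (K q) = H q := fun q => congrFun (hp.liftHomotopy_lifts H _ H0) q
  have hK0 : ∀ a, K (0, a) = F₀ a.2 := fun a => hp.liftHomotopy_zero H _ H0 a
  refine ⟨K.comp ⟨fun a => (1, a), by fun_prop⟩, ?_, ?_⟩
  · have : (fun t : unitInterval => K (t, (t₀, z₀))) = fun _ => e₀ := by
      apply hp.eq_of_comp_eq (A := unitInterval) ?_ continuous_const ?_ 0 ?_
      · exact K.continuous.comp (by fun_prop)
      · funext t
        show p (K _) = p e₀
        rw [hK, he]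
        simp [H]
      · show K (0, (t₀, z₀)) = e₀
        rw [hK0, h1]
    exact congrFun this 1
  · intro x
    show p (K (1, x)) = f x
    rw [hK]
    simp [H]

/-! ### spheres -/

/-- forget the first coordinate -/
def tail1 {n : ℕ} (x : Eu (n + 1)) : Eu n := WithLp.toLp 2 fun i => x i.succ

theorem tail1_apply {n : ℕ} (x : Eu (n + 1)) (i : Fin n) : tail1 x i = x i.succ := rfl

@[fun_prop]
theorem continuous_tail1 {n : ℕ} : Continuous (tail1 : Eu (n + 1) → Eu n) := by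
  unfold tail1
  fun_prop

theorem norm_sq_tail1 {n : ℕ} (x : Eu (n + 1)) : ‖x‖ ^ 2 = x 0 ^ 2 + ‖tail1 x‖ ^ 2 := by
  rw [EuclideanSpace.norm_sq_eq, EuclideanSpace.norm_sq_eq, Fin.sum_univ_succ]
  simp only [Real.norm_eq_abs, sq_abs]
  rfl

/-- `(t, b)` as a vector -/
def consE {n : ℕ} (t : ℝ) (b : Eu n) : Eu (n + 1) := WithLp.toLp 2 (Fin.cons t fun i => b i)

theorem consE_zero {n : ℕ} (t : ℝ) (b : Eu n) : consE t b 0 = t := rfl

theorem tail1_consE {n : ℕ} (t : ℝ) (b : Eu n) : tail1 (consE t b) = b := rfl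

theorem consE_tail1 {n : ℕ} (x : Eu (n + 1)) : consE (x 0) (tail1 x) = x := by
  ext i
  refine Fin.cases ?_ (fun i => ?_) i
  · rfl
  · rfl

@[fun_prop]
theorem continuous_consE {n : ℕ} {X : Type} [TopologicalSpace X] {f : X → ℝ} {g : X → Eu n}
    (hf : Continuous f) (hg : Continuous g) : Continuous fun x => consE (f x) (g x) := by
  unfold consE
  refine (PiLp.continuous_toLp 2 _).comp (continuous_pi fun i => ?_)
  refine Fin.cases ?_ (fun i => ?_) i
  · simpa only [Fin.cons_zero] using hf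
  · simp only [Fin.cons_succ]
    fun_prop

theorem norm_consE_sq {n : ℕ} (t : ℝ) (b : Eu n) : ‖consE t b‖ ^ 2 = t ^ 2 + ‖b‖ ^ 2 := by
  rw [norm_sq_tail1, consE_zero, tail1_consE]

/-- the radial retraction to the unit ball -/
def ballR {n : ℕ} (b : Eu n) : Eu n := (max 1 ‖b‖)⁻¹ • b

theorem norm_ballR {n : ℕ} (b : Eu n) : ‖ballR b‖ ≤ 1 := by
  unfold ballR
  have h : 0 < max 1 ‖b‖ := lt_of_lt_of_le one_pos (le_max_left _ _)
  rw [norm_smul, norm_inv, Real.norm_eq_abs, abs_of_pos h, inv_mul_le_iff₀ h, mul_one]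
  exact le_max_right _ _

theorem ballR_eq {n : ℕ} {b : Eu n} (hb : ‖b‖ ≤ 1) : ballR b = b := by
  unfold ballR
  rw [max_eq_left hb, inv_one, one_smul]

@[fun_prop]
theorem continuous_ballR {n : ℕ} : Continuous (ballR : Eu n → Eu n) := by
  unfold ballR
  have : ∀ b : Eu n, max 1 ‖b‖ ≠ 0 := fun b =>
    (lt_of_lt_of_le one_pos (le_max_left _ _)).ne'
  fun_prop (disch := assumption)

/-- the closed hemisphere `ε x₀ ≥ 0` -/
def hemi (n : ℕ) (ε : ℝ) : Set (Sn n) := {x | 0 ≤ ε * (x : Eu (n + 1)) 0}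

theorem isClosed_hemi (n : ℕ) (ε : ℝ) : IsClosed (hemi n ε) := by
  unfold hemi
  exact isClosed_le continuous_const (by fun_prop)

theorem hemi_union (n : ℕ) : hemi n 1 ∪ hemi n (-1) = univ := by
  ext x
  simp only [hemi, mem_union, mem_ofPred_eq, mem_univ, iff_true]
  rcases le_total 0 ((x : Eu (n + 1)) 0) with h | h
  · left; linarith
  · right; linarith

theorem hemi_inter (n : ℕ) : hemi n 1 ∩ hemi n (-1) = {x : Sn n | (x : Eu (n + 1)) 0 = 0} := by
  ext x
  simp only [hemi, mem_inter_iff, mem_ofPred_eq]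
  constructor
  · rintro ⟨h1, h2⟩
    linarith
  · intro h
    rw [h]
    simp

/-- the point of the hemisphere over a point of the ball -/
def hemiR (n : ℕ) (ε : ℝ) (hε : ε ^ 2 = 1) : C(Eu n, hemi n ε) where
  toFun b := ⟨⟨consE (ε * Real.sqrt (1 - ‖ballR b‖ ^ 2)) (ballR b), by
    rw [mem_sphere_zero_iff_norm]
    have h := norm_consE_sq (ε * Real.sqrt (1 - ‖ballR b‖ ^ 2)) (ballR b)
    rw [mul_pow, hε, Real.sq_sqrt (by nlinarith [norm_nonneg (ballR b), norm_ballR b])] at h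
    have h2 : ‖consE (ε * Real.sqrt (1 - ‖ballR b‖ ^ 2)) (ballR b)‖ ^ 2 = 1 := by rw [h]; ring
    have h3 := norm_nonneg (consE (ε * Real.sqrt (1 - ‖ballR b‖ ^ 2)) (ballR b))
    nlinarith⟩, by
    show 0 ≤ ε * (ε * Real.sqrt (1 - ‖ballR b‖ ^ 2))
    rw [← mul_assoc, ← sq, hε, one_mul]
    exact Real.sqrt_nonneg _⟩
  continuous_toFun := by
    refine Continuous.subtype_mk (Continuous.subtype_mk ?_ _) _
    fun_prop

/-- the projection of the hemisphere -/
def hemiI (n : ℕ) (ε : ℝ) : C(hemi n ε, Eu n) := ⟨fun x => tail1 (x : Eu (n + 1)), by fun_prop⟩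

theorem hemiR_hemiI (n : ℕ) (ε : ℝ) (hε : ε ^ 2 = 1) (x : hemi n ε) :
    hemiR n ε hε (hemiI n ε x) = x := by
  obtain ⟨⟨x, hx⟩, hx'⟩ := x
  have hx2 : 0 ≤ ε * x 0 := hx'
  apply Subtype.ext
  apply Subtype.ext
  show consE (ε * Real.sqrt (1 - ‖ballR (tail1 x)‖ ^ 2)) (ballR (tail1 x)) = x
  have h1 : x 0 ^ 2 + ‖tail1 x‖ ^ 2 = 1 := by
    rw [← norm_sq_tail1, mem_sphere_zero_iff_norm.1 hx, one_pow]
  have h2 : ‖tail1 x‖ ≤ 1 := by nlinarith [norm_nonneg (tail1 x), sq_nonneg (x 0)]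
  rw [ballR_eq h2]
  have h3 : 1 - ‖tail1 x‖ ^ 2 = x 0 ^ 2 := by linarith
  rw [h3, Real.sqrt_sq_eq_abs]
  have h4 : ε * |x 0| = x 0 := by
    have hε' : |ε| = 1 := by
      have : |ε| ^ 2 = 1 := by rw [sq_abs, hε]
      nlinarith [abs_nonneg ε]
    have h5 : |x 0| = ε * x 0 := by
      have : |ε * x 0| = ε * x 0 := abs_of_nonneg hx2
      rw [abs_mul, hε', one_mul] at this
      exact this
    rw [h5, ← mul_assoc, ← sq, hε, one_mul]
  rw [h4, consE_tail1]

theorem liftP_hemi (n : ℕ) (ε : ℝ) (hε : ε ^ 2 = 1) : LiftP (hemi n ε) :=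
  liftP_retract (hemiI n ε) (hemiR n ε hε) (hemiR_hemiI n ε hε) (liftP_vector _)

/-- the inclusion of the equator -/
def eqI (n : ℕ) : C(Sn n, Sn (n + 1)) where
  toFun x := ⟨consE 0 (x : Eu (n + 1)), by
    rw [mem_sphere_zero_iff_norm]
    have h := norm_consE_sq 0 (x : Eu (n + 1))
    rw [norm_eq_of_mem_sphere] at h
    have h3 := norm_nonneg (consE 0 (x : Eu (n + 1)))
    nlinarith⟩
  continuous_toFun := by
    refine Continuous.subtype_mk ?_ _
    fun_prop

theorem range_eqI (n : ℕ) : range (eqI n) = {x : Sn (n + 1) | (x : Eu (n + 2)) 0 = 0} := by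
  ext x
  constructor
  · rintro ⟨y, rfl⟩
    rfl
  · intro h
    have h' : (x : Eu (n + 2)) 0 = 0 := h
    refine ⟨⟨tail1 (x : Eu (n + 2)), ?_⟩, ?_⟩
    · rw [mem_sphere_zero_iff_norm]
      have := norm_sq_tail1 (x : Eu (n + 2))
      rw [h', norm_eq_of_mem_sphere] at this
      have h3 := norm_nonneg (tail1 (x : Eu (n + 2)))
      nlinarith
    · apply Subtype.ext
      show consE 0 (tail1 (x : Eu (n + 2))) = _
      rw [← h', consE_tail1]

theorem connected_Sn (n : ℕ) (hn : n ≠ 0) : ConnectedSpace (Sn n) := by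
  apply Subtype.connectedSpace
  apply isConnected_sphere _ _ zero_le_one
  rw [← Module.finrank_eq_rank, finrank_euclideanSpace, Fintype.card_fin]
  exact_mod_cast by omega

theorem preconnected_equator (n : ℕ) (hn : n ≠ 0) :
    IsPreconnected (hemi (n + 1) 1 ∩ hemi (n + 1) (-1)) := by
  rw [hemi_inter, ← range_eqI]
  have := connected_Sn n hn
  exact isPreconnected_range (eqI n).continuous

theorem nonempty_equator (n : ℕ) (hn : n ≠ 0) :
    (hemi (n + 1) 1 ∩ hemi (n + 1) (-1)).Nonempty := by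
  rw [hemi_inter, ← range_eqI]
  have := connected_Sn n hn
  exact range_nonempty _

theorem liftP_Sn (n : ℕ) (hn : n ≠ 0) : LiftP (Sn (n + 1)) :=
  liftP_union (isClosed_hemi _ _) (isClosed_hemi _ _) (hemi_union _) (preconnected_equator n hn)
    (nonempty_equator n hn) (liftP_hemi _ _ (by norm_num)) (liftP_hemi _ _ (by norm_num))

theorem liftP_XT : LiftP (ℝ × Sn 3) := liftP_line (liftP_Sn 2 two_ne_zero)

end Pool.Agent.S1S3
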