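import Pool.Agent.Helper69_S1S3.Lift
import Pool.Agent.Helper83_S1S3.Stmts

/-!
# Module SEP: separation by locally flat closed sets
-/

set_option autoImplicit false

open Set Topology Filter

noncomputable section

namespace Pool.Agent.S1S3

namespace Sep

variable {K : Set XT}

/-- a flat chart at `x` -/
def Chart (K : Set XT) (x : XT) (e : OpenPartialHomeomorph XT (ℝ × Eu 3)) : Prop :=
  x ∈ e.source ∧ ∀ z ∈ e.source, (z ∈ K ↔ (e z).1 = 0)

theorem chart_pos {x : XT} {e : OpenPartialHomeomorph XT (ℝ × Eu 3)} (he : Chart K x e)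
    (hx : x ∈ K) : ∃ᶠ z in 𝓝[Kᶜ] x, 0 < (e z).1 := by
  have h0 : (e x).1 = 0 := (he.2 x he.1).1 hx
  have hcont : Tendsto e.symm (𝓝 (e x)) (𝓝 x) := by
    have := (e.continuousAt_symm (e.map_source he.1)).tendsto
    rwa [e.left_inv he.1] at this
  have hf : ∃ᶠ w in 𝓝 (e x), 0 < w.1 := by
    rw [Metric.nhds_basis_ball.frequently_iff]
    intro ε hε
    refine ⟨((ε / 2 : ℝ), (e x).2), ?_, by simpa using hε⟩
    rw [Metric.mem_ball, Prod.dist_eq, dist_self, max_lt_iff, Real.dist_eq, h0, sub_zero,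
      abs_of_pos (by positivity)]
    exact ⟨by linarith, hε⟩
  have ht : ∀ᶠ w in 𝓝 (e x), w ∈ e.target := e.open_target.mem_nhds (e.map_source he.1)
  have h1 : ∃ᶠ w in 𝓝 (e x), 0 < (e (e.symm w)).1 ∧ e.symm w ∈ Kᶜ := by
    refine (hf.and_eventually ht).mono ?_
    rintro w ⟨hw, hw'⟩
    rw [e.right_inv hw']
    refine ⟨hw, fun hK => ?_⟩
    have := (he.2 _ (e.map_target hw')).1 hK
    rw [e.right_inv hw'] at this
    linarith
  have h2 := hcont.frequently (p := fun z => 0 < (e z).1 ∧ z ∈ Kᶜ) h1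
  rw [frequently_nhdsWithin_iff]
  exact h2

theorem chart_neg {x : XT} {e : OpenPartialHomeomorph XT (ℝ × Eu 3)} (he : Chart K x e)
    (hx : x ∈ K) : ∃ᶠ z in 𝓝[Kᶜ] x, (e z).1 < 0 := by
  have h0 : (e x).1 = 0 := (he.2 x he.1).1 hx
  have hcont : Tendsto e.symm (𝓝 (e x)) (𝓝 x) := by
    have := (e.continuousAt_symm (e.map_source he.1)).tendsto
    rwa [e.left_inv he.1] at this
  have hf : ∃ᶠ w in 𝓝 (e x), w.1 < 0 := by
    rw [Metric.nhds_basis_ball.frequently_iff]
    intro ε hε
    refine ⟨((-(ε / 2) : ℝ), (e x).2), ?_, by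
      show -(ε / 2) < 0
      linarith⟩
    rw [Metric.mem_ball, Prod.dist_eq, dist_self, max_lt_iff, Real.dist_eq, h0, sub_zero,
      abs_neg, abs_of_pos (by positivity)]
    exact ⟨by linarith, hε⟩
  have ht : ∀ᶠ w in 𝓝 (e x), w ∈ e.target := e.open_target.mem_nhds (e.map_source he.1)
  have h1 : ∃ᶠ w in 𝓝 (e x), (e (e.symm w)).1 < 0 ∧ e.symm w ∈ Kᶜ := by
    refine (hf.and_eventually ht).mono ?_
    rintro w ⟨hw, hw'⟩
    rw [e.right_inv hw']
    refine ⟨hw, fun hK => ?_⟩
    have := (he.2 _ (e.map_target hw')).1 hK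
    rw [e.right_inv hw'] at this
    linarith
  have h2 := hcont.frequently (p := fun z => (e z).1 < 0 ∧ z ∈ Kᶜ) h1
  rw [frequently_nhdsWithin_iff]
  exact h2

theorem sign_const {X : Type} [TopologicalSpace X] {S : Set X} (hS : IsPreconnected S)
    {g : X → ℝ} (hg : ContinuousOn g S) (h0 : ∀ x ∈ S, g x ≠ 0) :
    (∀ x ∈ S, 0 < g x) ∨ (∀ x ∈ S, g x < 0) := by
  by_contra hcon
  push Not at hcon
  obtain ⟨⟨a, ha, ha'⟩, b, hb, hb'⟩ := hcon
  obtain ⟨c, hc, hc'⟩ := hS.intermediate_value ha hb hg ⟨ha', hb'⟩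
  exact h0 c hc hc'

theorem chart_compare {x : XT} {e e' : OpenPartialHomeomorph XT (ℝ × Eu 3)} (he : Chart K x e)
    (he' : Chart K x e') (hx : x ∈ K) :
    (∀ᶠ z in 𝓝[Kᶜ] x, (0 < (e z).1 ↔ 0 < (e' z).1)) ∨
      (∀ᶠ z in 𝓝[Kᶜ] x, (0 < (e z).1 ↔ (e' z).1 < 0)) := by
  have h0 : (e x).1 = 0 := (he.2 x he.1).1 hx
  have hO : IsOpen (e.target ∩ e.symm ⁻¹' e'.source) :=
    e.isOpen_inter_preimage_symm e'.open_source
  have hxO : e x ∈ e.target ∩ e.symm ⁻¹' e'.source :=
    ⟨e.map_source he.1, by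
      show e.symm (e x) ∈ e'.source
      rw [e.left_inv he.1]
      exact he'.1⟩
  obtain ⟨δ, hδ, hb⟩ := Metric.isOpen_iff.1 hO _ hxO
  set B := Metric.ball (e x) δ with hB
  have hconv : Convex ℝ B := by
    have : B = Metric.ball (e x).1 δ ×ˢ Metric.ball (e x).2 δ := by
      rw [ball_prod_same]
    rw [this]
    exact (convex_ball _ _).prod (convex_ball _ _)
  set g : ℝ × Eu 3 → ℝ := fun w => (e' (e.symm w)).1 with hg
  have gc : ContinuousOn g B := by
    apply continuous_fst.comp_continuousOn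
    apply e'.continuousOn.comp (e.continuousOn_symm.mono fun w hw => (hb hw).1)
    exact fun w hw => (hb hw).2
  have g0 : ∀ w ∈ B, g w = 0 ↔ w.1 = 0 := by
    intro w hw
    have h1 := he.2 _ (e.map_target (hb hw).1)
    have h2 := he'.2 _ (hb hw).2
    rw [e.right_inv (hb hw).1] at h1
    rw [← h1, ← h2]
  have hN : ∀ᶠ z in 𝓝[Kᶜ] x, z ∈ e.source ∧ e z ∈ B := by
    apply eventually_nhdsWithin_of_eventually_nhds
    filter_upwards [e.open_source.mem_nhds he.1,
      (e.continuousAt he.1).preimage_mem_nhds (Metric.ball_mem_nhds _ hδ)] with z h1 h2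
    exact ⟨h1, h2⟩
  have hKc : ∀ᶠ z in 𝓝[Kᶜ] x, z ∈ Kᶜ := eventually_mem_nhdsWithin
  have hP : IsPreconnected (B ∩ {w | 0 < w.1}) :=
    (hconv.inter (convex_halfSpace_gt ⟨fun a b => rfl, fun a b => rfl⟩ 0)).isPreconnected
  have hM : IsPreconnected (B ∩ {w | w.1 < 0}) :=
    (hconv.inter (convex_halfSpace_lt ⟨fun a b => rfl, fun a b => rfl⟩ 0)).isPreconnected
  have sP := sign_const hP (gc.mono inter_subset_left) (fun w hw h => by
    have := (g0 w hw.1).1 h
    have h3 : 0 < w.1 := hw.2
    linarith)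
  have sM := sign_const hM (gc.mono inter_subset_left) (fun w hw h => by
    have := (g0 w hw.1).1 h
    have h3 : w.1 < 0 := hw.2
    linarith)
  have hgz : ∀ z ∈ e.source, g (e z) = (e' z).1 := fun z hz => by
    simp only [hg]
    rw [e.left_inv hz]
  have hne : ∀ z, z ∈ e.source → z ∈ Kᶜ → (e z).1 ≠ 0 := fun z hz hz' h =>
    hz' ((he.2 z hz).2 h)
  rcases sP with sP | sP <;> rcases sM with sM | sM
  · exfalso
    obtain ⟨z, ⟨h1, h2⟩, h3⟩ := ((chart_neg he' hx).and_eventually hN).and_eventually hKc |>.exists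
    rw [← hgz z h2.1] at h1
    rcases lt_or_gt_of_ne (hne z h2.1 h3) with h4 | h4
    · linarith [sM (e z) ⟨h2.2, h4⟩]
    · linarith [sP (e z) ⟨h2.2, h4⟩]
  · left
    filter_upwards [hN, hKc] with z h2 h3
    rw [← hgz z h2.1]
    rcases lt_or_gt_of_ne (hne z h2.1 h3) with h4 | h4
    · have := sM (e z) ⟨h2.2, h4⟩
      constructor <;> intro h5 <;> linarith
    · have := sP (e z) ⟨h2.2, h4⟩
      exact ⟨fun _ => this, fun _ => h4⟩
  · right
    filter_upwards [hN, hKc] with z h2 h3
    rw [← hgz z h2.1]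
    rcases lt_or_gt_of_ne (hne z h2.1 h3) with h4 | h4
    · have := sM (e z) ⟨h2.2, h4⟩
      constructor <;> intro h5 <;> linarith
    · have := sP (e z) ⟨h2.2, h4⟩
      exact ⟨fun _ => this, fun _ => h4⟩
  · exfalso
    obtain ⟨z, ⟨h1, h2⟩, h3⟩ := ((chart_pos he' hx).and_eventually hN).and_eventually hKc |>.exists
    rw [← hgz z h2.1] at h1
    rcases lt_or_gt_of_ne (hne z h2.1 h3) with h4 | h4
    · linarith [sM (e z) ⟨h2.2, h4⟩]
    · linarith [sP (e z) ⟨h2.2, h4⟩]

/-- `P` is one of the two local sides of `K` near `x` -/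
def IsSide (K : Set XT) (x : XT) (P : Set XT) : Prop :=
  (x ∉ K → (∀ᶠ z in 𝓝 x, z ∈ P) ∨ (∀ᶠ z in 𝓝 x, z ∉ P)) ∧
  (x ∈ K → ∃ e : OpenPartialHomeomorph XT (ℝ × Eu 3), Chart K x e ∧
    ((∀ᶠ z in 𝓝[Kᶜ] x, (z ∈ P ↔ 0 < (e z).1)) ∨ (∀ᶠ z in 𝓝[Kᶜ] x, (z ∈ P ↔ (e z).1 < 0))))

/-- the two sets agree near `x` -/
def Agr (K : Set XT) (x : XT) (P Q : Set XT) : Prop := ∀ᶠ z in 𝓝[Kᶜ] x, (z ∈ P ↔ z ∈ Q)

/-- the two sets are opposite near `x` -/
def Opp (K : Set XT) (x : XT) (P Q : Set XT) : Prop := ∀ᶠ z in 𝓝[Kᶜ] x, (z ∈ P ↔ z ∉ Q)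

theorem chart_sign {x : XT} {e : OpenPartialHomeomorph XT (ℝ × Eu 3)} (he : Chart K x e) :
    ∀ᶠ z in 𝓝[Kᶜ] x, ((e z).1 < 0 ↔ ¬ 0 < (e z).1) := by
  have h1 : ∀ᶠ z in 𝓝[Kᶜ] x, z ∈ e.source :=
    eventually_nhdsWithin_of_eventually_nhds (e.open_source.mem_nhds he.1)
  have hKc : ∀ᶠ z in 𝓝[Kᶜ] x, z ∈ Kᶜ := eventually_mem_nhdsWithin
  filter_upwards [h1, hKc] with z h2 h3
  have h4 : (e z).1 ≠ 0 := fun h => h3 ((he.2 z h2).2 h)
  constructor
  · intro h h5
    linarith
  · intro h
    exact lt_of_le_of_ne (not_lt.1 h) h4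

theorem dich {x : XT} {P Q : Set XT} (hP : IsSide K x P) (hQ : IsSide K x Q) :
    Agr K x P Q ∨ Opp K x P Q := by
  unfold Agr Opp
  by_cases hx : x ∈ K
  · obtain ⟨e, he, hP'⟩ := hP.2 hx
    obtain ⟨e', he', hQ'⟩ := hQ.2 hx
    have s := chart_sign he
    have s' := chart_sign he'
    rcases chart_compare he he' hx with hc | hc <;> rcases hP' with hP' | hP' <;>
      rcases hQ' with hQ' | hQ'
    · left
      filter_upwards [s, s', hc, hP', hQ'] with z h1 h2 h3 h4 h5
      tauto
    · right
      filter_upwards [s, s', hc, hP', hQ'] with z h1 h2 h3 h4 h5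
      tauto
    · right
      filter_upwards [s, s', hc, hP', hQ'] with z h1 h2 h3 h4 h5
      tauto
    · left
      filter_upwards [s, s', hc, hP', hQ'] with z h1 h2 h3 h4 h5
      tauto
    · right
      filter_upwards [s, s', hc, hP', hQ'] with z h1 h2 h3 h4 h5
      tauto
    · left
      filter_upwards [s, s', hc, hP', hQ'] with z h1 h2 h3 h4 h5
      tauto
    · left
      filter_upwards [s, s', hc, hP', hQ'] with z h1 h2 h3 h4 h5
      tauto
    · right
      filter_upwards [s, s', hc, hP', hQ'] with z h1 h2 h3 h4 h5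
      tauto
  · rcases hP.1 hx with h1 | h1 <;> rcases hQ.1 hx with h2 | h2
    · left
      apply eventually_nhdsWithin_of_eventually_nhds
      filter_upwards [h1, h2] with z h3 h4
      tauto
    · right
      apply eventually_nhdsWithin_of_eventually_nhds
      filter_upwards [h1, h2] with z h3 h4
      tauto
    · right
      apply eventually_nhdsWithin_of_eventually_nhds
      filter_upwards [h1, h2] with z h3 h4
      tauto
    · left
      apply eventually_nhdsWithin_of_eventually_nhds
      filter_upwards [h1, h2] with z h3 h4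
      tauto

theorem neBot (hK : IsClosed K) (hf : FlatSet K) (x : XT) : (𝓝[Kᶜ] x).NeBot := by
  by_cases hx : x ∈ K
  · obtain ⟨e, he, he'⟩ := hf x hx
    have := chart_pos (K := K) (e := e) ⟨he, he'⟩ hx
    constructor
    intro hb
    rw [hb] at this
    exact this (by simp)
  · rw [hK.isOpen_compl.nhdsWithin_eq hx]
    infer_instance

theorem not_agr_opp (hK : IsClosed K) (hf : FlatSet K) {x : XT} {P Q : Set XT}
    (h1 : Agr K x P Q) (h2 : Opp K x P Q) : False := by
  have := neBot hK hf x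
  obtain ⟨z, hz⟩ := (h1.and h2).exists
  tauto

/-- the local sides -/
def Idx (K : Set XT) : Type := {p : Set XT × Set XT // IsOpen p.1 ∧ ∀ x ∈ p.1, IsSide K x p.2}

theorem exists_idx (hK : IsClosed K) (hf : FlatSet K) (x : XT) : ∃ i : Idx K, x ∈ i.1.1 := by
  by_cases hx : x ∈ K
  · obtain ⟨e, he, he'⟩ := hf x hx
    refine ⟨⟨(e.source, {z | 0 < (e z).1}), e.open_source, fun y hy => ⟨fun hyK => ?_,
      fun hyK => ⟨e, ⟨hy, he'⟩, Or.inl (Eventually.of_forall fun z => Iff.rfl)⟩⟩⟩, he⟩
    have h1 : (e y).1 ≠ 0 := fun h => hyK ((he' y hy).2 h)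
    have h2 : ContinuousAt (fun z => (e z).1) y :=
      continuous_fst.continuousAt.comp (e.continuousAt hy)
    rcases lt_or_gt_of_ne h1 with h3 | h3
    · right
      filter_upwards [h2.eventually_lt_const h3] with z hz
      show ¬ 0 < (e z).1
      linarith
    · left
      filter_upwards [h2.eventually_const_lt h3] with z hz
      exact hz
  · exact ⟨⟨(Kᶜ, univ), hK.isOpen_compl, fun y hy => ⟨fun _ => Or.inl (by simp),
      fun h => (hy h).elim⟩⟩, hx⟩

open Classical in
/-- the double covering of local sides -/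
def core (hK : IsClosed K) (hf : FlatSet K) : FiberBundleCore (Idx K) XT Bool where
  baseSet i := i.1.1
  isOpen_baseSet i := i.2.1
  indexAt x := (exists_idx hK hf x).choose
  mem_baseSet_at x := (exists_idx hK hf x).choose_spec
  coordChange i j x v := if Agr K x i.1.2 j.1.2 then v else !v
  coordChange_self i x _ v := if_pos (Eventually.of_forall fun z => Iff.rfl)
  continuousOn_coordChange i j := by
    rintro ⟨x, v⟩ ⟨hx, -⟩
    apply ContinuousAt.continuousWithinAt
    have hv : ∀ᶠ p : XT × Bool in 𝓝 (x, v), p.2 = v :=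
      continuous_snd.continuousAt.eventually (p := fun b => b = v)
        ((isOpen_discrete {v}).mem_nhds rfl)
    rcases dich (i.2.2 x hx.1) (j.2.2 x hx.2) with h | h
    · have h1 : ∀ᶠ p : XT × Bool in 𝓝 (x, v), Agr K p.1 i.1.2 j.1.2 :=
        (continuous_fst.continuousAt (x := (x, v))).eventually
          (p := fun y => Agr K y i.1.2 j.1.2) (eventually_nhds_nhdsWithin.2 h)
      apply continuousAt_const (y := v) |>.congr
      filter_upwards [hv, h1] with p h2 h3
      rw [if_pos h3, h2]
    · have h1 : ∀ᶠ p : XT × Bool in 𝓝 (x, v), Opp K p.1 i.1.2 j.1.2 :=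
        (continuous_fst.continuousAt (x := (x, v))).eventually
          (p := fun y => Opp K y i.1.2 j.1.2) (eventually_nhds_nhdsWithin.2 h)
      apply continuousAt_const (y := !v) |>.congr
      filter_upwards [hv, h1] with p h2 h3
      rw [if_neg fun h4 => not_agr_opp hK hf h4 h3, h2]
  coordChange_comp i j k x hx v := by
    have hi := i.2.2 x hx.1.1
    have hj := j.2.2 x hx.1.2
    have hk := k.2.2 x hx.2
    rcases dich hi hj with h1 | h1 <;> rcases dich hj hk with h2 | h2
    · have h3 : Agr K x i.1.2 k.1.2 := by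
        filter_upwards [h1, h2] with z h4 h5
        tauto
      rw [if_pos h1, if_pos h2, if_pos h3]
    · have h3 : Opp K x i.1.2 k.1.2 := by
        filter_upwards [h1, h2] with z h4 h5
        tauto
      rw [if_pos h1, if_neg fun h4 => not_agr_opp hK hf h4 h2,
        if_neg fun h4 => not_agr_opp hK hf h4 h3]
    · have h3 : Opp K x i.1.2 k.1.2 := by
        filter_upwards [h1, h2] with z h4 h5
        tauto
      rw [if_pos h2, if_neg fun h4 => not_agr_opp hK hf h4 h1,
        if_neg fun h4 => not_agr_opp hK hf h4 h3]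
    · have h3 : Agr K x i.1.2 k.1.2 := by
        filter_upwards [h1, h2] with z h4 h5
        tauto
      rw [if_pos h3, if_neg fun h4 => not_agr_opp hK hf h4 h1,
        if_neg fun h4 => not_agr_opp hK hf h4 h2, Bool.not_not]

theorem exists_section (hK : IsClosed K) (hf : FlatSet K) :
    ∃ F : C(XT, (core hK hf).TotalSpace), ∀ x, (F x).proj = x := by
  have hc : IsCoveringMap (core hK hf).proj :=
    IsFiberBundle.isCoveringMap fun x => ⟨(core hK hf).localTrivAt x,
      (core hK hf).mem_localTrivAt_baseSet x⟩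
  have hne : Nonempty (Sn 3) := (connected_Sn 3 three_ne_zero).toNonempty
  obtain ⟨s⟩ := hne
  let x₀ : XT := (0, s)
  obtain ⟨F, -, hF⟩ := liftP_XT (core hK hf).TotalSpace XT (core hK hf).proj hc
    (ContinuousMap.id _) x₀ ⟨x₀, true⟩ rfl
  exact ⟨F, hF⟩

/-- the coordinate of the section in the chart `i` -/
def coord (hK : IsClosed K) (hf : FlatSet K) (F : C(XT, (core hK hf).TotalSpace)) (i : Idx K)
    (x : XT) : Bool := ((core hK hf).localTriv i (F x)).2

theorem coord_loc (hK : IsClosed K) (hf : FlatSet K) (F : C(XT, (core hK hf).TotalSpace))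
    (hF : ∀ x, (F x).proj = x) (i : Idx K) (x : XT) (hx : x ∈ i.1.1) :
    ∀ᶠ z in 𝓝 x, coord hK hf F i z = coord hK hf F i x := by
  have h1 : ContinuousAt (fun z => (core hK hf).localTriv i (F z)) x := by
    apply ContinuousAt.comp (f := F) (g := (core hK hf).localTriv i) ?_ F.continuous.continuousAt
    apply ((core hK hf).localTriv i).continuousAt
    rw [FiberBundleCore.mem_localTriv_source]
    show (F x).proj ∈ i.1.1
    rw [hF]
    exact hx
  have h2 : ContinuousAt (coord hK hf F i) x := continuous_snd.continuousAt.comp h1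
  exact h2.eventually (p := fun b => b = coord hK hf F i x)
    ((isOpen_discrete {coord hK hf F i x}).mem_nhds rfl)

open Classical in
theorem coord_change (hK : IsClosed K) (hf : FlatSet K) (F : C(XT, (core hK hf).TotalSpace))
    (hF : ∀ x, (F x).proj = x) (i j : Idx K) (x : XT) (hi : x ∈ i.1.1) (hj : x ∈ j.1.1) :
    coord hK hf F j x = if Agr K x i.1.2 j.1.2 then coord hK hf F i x
      else !(coord hK hf F i x) := by
  have h1 := (core hK hf).coordChange_comp ((core hK hf).indexAt (F x).proj) i j (F x).proj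
    ⟨⟨(core hK hf).mem_baseSet_at _, by rw [hF]; exact hi⟩, by rw [hF]; exact hj⟩ (F x).2
  have h2 : coord hK hf F j x =
    (core hK hf).coordChange ((core hK hf).indexAt (F x).proj) j (F x).proj (F x).2 := rfl
  rw [h2, ← h1]
  show (if Agr K (F x).proj i.1.2 j.1.2 then coord hK hf F i x else !(coord hK hf F i x)) = _
  rw [hF]

/-- existence of a global side -/
theorem exists_side (hK : IsClosed K) (hf : FlatSet K) :
    ∃ S : Set XT, ∀ x, IsSide K x S := by
  classical
  obtain ⟨F, hF⟩ := exists_section hK hf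
  let i₀ : Idx K := ⟨(Kᶜ, univ), hK.isOpen_compl, fun y hy => ⟨fun _ => Or.inl (by simp),
      fun h => (hy h).elim⟩⟩
  let S : Set XT := {z | coord hK hf F i₀ z = true}
  have key : ∀ (i : Idx K) (x : XT), x ∈ i.1.1 → Agr K x S i.1.2 ∨ Opp K x S i.1.2 := by
    intro i x hx
    have h1 := eventually_nhdsWithin_of_eventually_nhds (s := Kᶜ) (coord_loc hK hf F hF i x hx)
    have h2 : ∀ᶠ z in 𝓝[Kᶜ] x, z ∈ Kᶜ := eventually_mem_nhdsWithin
    have h3 : ∀ᶠ z in 𝓝[Kᶜ] x, z ∈ i.1.1 :=
      eventually_nhdsWithin_of_eventually_nhds (i.2.1.mem_nhds hx)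
    have h4 : ∀ᶠ z in 𝓝[Kᶜ] x, (z ∈ S ↔ (z ∈ i.1.2 ↔ coord hK hf F i x = true)) := by
      filter_upwards [h1, h2, h3] with z h5 h6 h7
      have h8 := coord_change hK hf F hF i i₀ z h7 h6
      have h9 : Agr K z i.1.2 i₀.1.2 ↔ z ∈ i.1.2 := by
        have hz : 𝓝[Kᶜ] z = 𝓝 z := hK.isOpen_compl.nhdsWithin_eq h6
        unfold Agr
        rw [hz]
        constructor
        · intro h
          have := h.self_of_nhds
          rw [this]
          trivial
        · intro h
          rcases (i.2.2 z h7).1 h6 with h10 | h10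
          · filter_upwards [h10] with w hw
            exact ⟨fun _ => trivial, fun _ => hw⟩
          · exact (h10.self_of_nhds h).elim
      show coord hK hf F i₀ z = true ↔ _
      rw [h8, h5]
      by_cases h10 : z ∈ i.1.2
      · rw [if_pos (h9.2 h10)]
        tauto
      · rw [if_neg fun h => h10 (h9.1 h)]
        cases coord hK hf F i x <;> simp [h10]
    by_cases hb : coord hK hf F i x = true
    · left
      filter_upwards [h4] with z h5
      tauto
    · right
      filter_upwards [h4] with z h5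
      tauto
  refine ⟨S, fun x => ⟨fun hx => ?_, fun hx => ?_⟩⟩
  · have hz : 𝓝[Kᶜ] x = 𝓝 x := hK.isOpen_compl.nhdsWithin_eq hx
    rcases key i₀ x hx with h | h
    · left
      unfold Agr at h
      rw [hz] at h
      filter_upwards [h] with z h1
      rw [h1]
      trivial
    · right
      unfold Opp at h
      rw [hz] at h
      filter_upwards [h] with z h1 h2
      exact (h1.1 h2) trivial
  · obtain ⟨e, he, he'⟩ := hf x hx
    have hc : Chart K x e := ⟨he, he'⟩
    obtain ⟨i, hi⟩ := exists_idx hK hf x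
    obtain ⟨e, hc, h1⟩ := (i.2.2 x hi).2 hx
    refine ⟨e, hc, ?_⟩
    have s := chart_sign hc
    rcases key i x hi with h | h <;> rcases h1 with h1 | h1
    · left
      filter_upwards [h, h1, s] with z h2 h3 h4
      tauto
    · right
      filter_upwards [h, h1, s] with z h2 h3 h4
      tauto
    · right
      filter_upwards [h, h1, s] with z h2 h3 h4
      tauto
    · left
      filter_upwards [h, h1, s] with z h2 h3 h4
      tauto

theorem closure_side {S : Set XT} {x : XT} (hS : IsSide K x S) (hx : x ∈ K) :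
    (∃ᶠ z in 𝓝[Kᶜ] x, z ∈ S) ∧ (∃ᶠ z in 𝓝[Kᶜ] x, z ∉ S) := by
  obtain ⟨e, hc, h1⟩ := hS.2 hx
  have s := chart_sign hc
  have hp := chart_pos hc hx
  have hm := chart_neg hc hx
  rcases h1 with h1 | h1
  · constructor
    · refine (hp.and_eventually (s.and h1)).mono ?_
      tauto
    · refine (hm.and_eventually (s.and h1)).mono ?_
      tauto
  · constructor
    · refine (hm.and_eventually (s.and h1)).mono ?_
      tauto
    · refine (hp.and_eventually (s.and h1)).mono ?_
      tauto

theorem isSide_comp {S : Set XT} (hS : ∀ x, IsSide K x S) (T : XT ≃ₜ XT) (hT : T '' K = K)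
    (x : XT) : IsSide K x (T ⁻¹' S) := by
  have hT' : ∀ z, T z ∈ K ↔ z ∈ K := by
    intro z
    constructor
    · intro h
      rw [← hT] at h
      obtain ⟨w, hw, hw'⟩ := h
      rwa [← T.injective hw']
    · intro h
      rw [← hT]
      exact ⟨z, h, rfl⟩
  have hlim : Tendsto T (𝓝[Kᶜ] x) (𝓝[Kᶜ] (T x)) := by
    apply tendsto_nhdsWithin_of_tendsto_nhds_of_eventually_within
    · exact T.continuous.continuousAt.tendsto.mono_left nhdsWithin_le_nhds
    · filter_upwards [eventually_mem_nhdsWithin] with z hz h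
      exact hz ((hT' z).1 h)
  constructor
  · intro hx
    rcases (hS (T x)).1 (fun h => hx ((hT' x).1 h)) with h | h
    · left
      exact T.continuous.continuousAt.eventually h
    · right
      exact T.continuous.continuousAt.eventually h
  · intro hx
    obtain ⟨e, hc, h1⟩ := (hS (T x)).2 ((hT' x).2 hx)
    refine ⟨T.transOpenPartialHomeomorph e, ⟨hc.1, fun z hz => ?_⟩, ?_⟩
    · rw [← hT' z]
      exact hc.2 (T z) hz
    · rcases h1 with h1 | h1
      · left
        exact hlim.eventually h1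
      · right
        exact hlim.eventually h1

theorem agr_or_opp (hK : IsClosed K) (hf : FlatSet K) {S Q : Set XT} (hS : ∀ x, IsSide K x S)
    (hQ : ∀ x, IsSide K x Q) : (∀ x, Agr K x S Q) ∨ (∀ x, Opp K x S Q) := by
  have hc : ConnectedSpace (Sn 3) := connected_Sn 3 three_ne_zero
  have h1 : IsClopen {x | Agr K x S Q} := by
    constructor
    · rw [← isOpen_compl_iff]
      have : {x | Agr K x S Q}ᶜ = {x | Opp K x S Q} := by
        ext x
        constructor
        · intro h
          exact (dich (hS x) (hQ x)).resolve_left h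
        · intro h h'
          exact not_agr_opp hK hf h' h
      rw [this, isOpen_iff_eventually]
      intro x hx
      exact eventually_nhds_nhdsWithin.2 hx
    · rw [isOpen_iff_eventually]
      intro x hx
      exact eventually_nhds_nhdsWithin.2 hx
  rcases isClopen_iff.1 h1 with h | h
  · right
    intro x
    have : x ∉ {x | Agr K x S Q} := by rw [h]; simp
    exact (dich (hS x) (hQ x)).resolve_left this
  · left
    intro x
    have : x ∈ {x | Agr K x S Q} := by rw [h]; trivial
    exact this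

theorem self_agr (hK : IsClosed K) {S Q : Set XT} {x : XT} (hx : x ∉ K) (h : Agr K x S Q) :
    x ∈ S ↔ x ∈ Q := by
  unfold Agr at h
  rw [hK.isOpen_compl.nhdsWithin_eq hx] at h
  exact h.self_of_nhds

theorem self_opp (hK : IsClosed K) {S Q : Set XT} {x : XT} (hx : x ∉ K) (h : Opp K x S Q) :
    x ∈ S ↔ x ∉ Q := by
  unfold Opp at h
  rw [hK.isOpen_compl.nhdsWithin_eq hx] at h
  exact h.self_of_nhds

end Sep

open Sep in
/-- module SEP -/
theorem sep : SepStatement := by
  intro K hK hf
  obtain ⟨S, hS⟩ := exists_side hK hf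
  have closedU : IsClosed (K ∪ S) := by
    rw [← isOpen_compl_iff, isOpen_iff_eventually]
    intro x hx
    have hxK : x ∉ K := fun h => hx (Or.inl h)
    rcases (hS x).1 hxK with h | h
    · exact (hx (Or.inr h.self_of_nhds)).elim
    · filter_upwards [h, hK.isOpen_compl.mem_nhds hxK] with z h1 h2 h3
      exact h3.elim h2 h1
  have closedV : IsClosed (K ∪ Sᶜ) := by
    rw [← isOpen_compl_iff, isOpen_iff_eventually]
    intro x hx
    have hxK : x ∉ K := fun h => hx (Or.inl h)
    rcases (hS x).1 hxK with h | h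
    · filter_upwards [h, hK.isOpen_compl.mem_nhds hxK] with z h1 h2 h3
      exact h3.elim h2 fun h4 => h4 h1
    · exact (hx (Or.inr h.self_of_nhds)).elim
  refine ⟨K ∪ S, K ∪ Sᶜ, closedU, closedV, ?_, ?_, ?_, ?_, ?_⟩
  · rw [eq_univ_iff_forall]
    intro x
    by_cases hx : x ∈ S
    · exact Or.inl (Or.inr hx)
    · exact Or.inr (Or.inr hx)
  · rw [← union_inter_distrib_left, inter_compl_self, union_empty]
  · intro x hx
    rw [mem_closure_iff_frequently]
    have := (closure_side (hS x) hx).1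
    rw [frequently_nhdsWithin_iff] at this
    exact this.mono fun z hz => ⟨Or.inr hz.1, hz.2⟩
  · intro x hx
    rw [mem_closure_iff_frequently]
    have := (closure_side (hS x) hx).2
    rw [frequently_nhdsWithin_iff] at this
    exact this.mono fun z hz => ⟨Or.inr hz.1, hz.2⟩
  · intro T hT
    have hT' : ∀ z, T z ∈ K ↔ z ∈ K := by
      intro z
      constructor
      · intro h
        rw [← hT] at h
        obtain ⟨w, hw, hw'⟩ := h
        rwa [← T.injective hw']
      · intro h
        rw [← hT]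
        exact ⟨z, h, rfl⟩
    have himg : ∀ A B : Set XT, T ⁻¹' B = A → T '' A = B := by
      intro A B h
      rw [← h, image_preimage_eq _ T.surjective]
    rcases agr_or_opp hK hf hS (isSide_comp hS T hT) with h | h
    · left
      constructor <;> apply himg <;> ext x <;>
        simp only [mem_preimage, mem_union, mem_compl_iff] <;> rw [hT'] <;>
        by_cases hx : x ∈ K
      · simp [hx]
      · have := self_agr hK hx (h x)
        rw [this]
        rfl
      · simp [hx]
      · have := self_agr hK hx (h x)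
        rw [this]
        rfl
    · right
      constructor <;> apply himg <;> ext x <;>
        simp only [mem_preimage, mem_union, mem_compl_iff] <;> rw [hT'] <;>
        by_cases hx : x ∈ K
      · simp [hx]
      · have := self_opp hK hx (h x)
        rw [this]
        rfl
      · simp [hx]
      · have h1 := self_opp hK hx (h x)
        rw [h1, not_not]
        rfl

end Pool.Agent.S1S3
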