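import Pool.Agent.Helper69_S1S3.Lift
import Pool.Agent.Helper83_S1S3.Stmts

/-!
# Splitting of circle-valued functions (`H² = 0`)
-/

set_option autoImplicit false

open Set Topology

noncomputable section

namespace Pool.Agent.S1S3

/-- splitting of `f` over `A` -/
def SplOn {X : Type} [TopologicalSpace X] (U V : Set X) (f : X → Circle) (A : Set X) : Prop :=
  ∃ g h : X → Circle, ContinuousOn g (U ∩ A) ∧ ContinuousOn h (V ∩ A) ∧
    ∀ x ∈ U ∩ V ∩ A, f x = g x * h x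

/-- `H¹ = 0` for a subset -/
def ExpOn {X : Type} [TopologicalSpace X] (A : Set X) : Prop :=
  ∀ k : X → Circle, ContinuousOn k A → ∃ u : X → ℝ, ContinuousOn u A ∧
    ∀ x ∈ A, k x = Circle.exp (u x)

/-- `H² = 0` -/
def Spl (X : Type) [TopologicalSpace X] : Prop :=
  ∀ U V : Set X, IsClosed U → IsClosed V → U ∪ V = univ → ∀ f : X → Circle,
    ContinuousOn f (U ∩ V) → SplOn U V f univ

theorem SplOn.mono {X : Type} [TopologicalSpace X] {U V : Set X} {f : X → Circle} {A B : Set X}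
    (h : SplOn U V f B) (hAB : A ⊆ B) : SplOn U V f A := by
  obtain ⟨g, k, h1, h2, h3⟩ := h
  exact ⟨g, k, h1.mono (inter_subset_inter_right _ hAB), h2.mono (inter_subset_inter_right _ hAB),
    fun x hx => h3 x ⟨hx.1, hAB hx.2⟩⟩

theorem isExp_of_liftP {X : Type} [TopologicalSpace X] (hX : LiftP X) (f : C(X, Circle)) :
    IsExp f := by
  rcases isEmpty_or_nonempty X with he | ⟨⟨x₀⟩⟩
  · exact ⟨⟨fun _ => 0, continuous_const⟩, fun x => (he.false x).elim⟩
  · obtain ⟨t, ht⟩ : ∃ t, Circle.exp t = f x₀ := ⟨Complex.arg (f x₀), Circle.exp_arg _⟩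
    obtain ⟨F, h1, h2⟩ := hX ℝ Circle Circle.exp Circle.isCoveringMap_exp f x₀ t ht
    exact ⟨F, fun x => (h2 x).symm⟩

/-- extension by a constant of a function on a subset -/
theorem continuousOn_ext {X Y : Type} [TopologicalSpace X] [TopologicalSpace Y] {A : Set X}
    (f : A → Y) (y : Y) {S : Set A} (hf : ContinuousOn f S) :
    ∃ g : X → Y, ContinuousOn g (Subtype.val '' S) ∧ ∀ x : A, g x = f x := by
  classical
  refine ⟨fun x => if h : x ∈ A then f ⟨x, h⟩ else y, ?_, fun x => by simp⟩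
  rw [IsInducing.subtypeVal.continuousOn_image_iff]
  convert hf using 1
  funext x
  simp

theorem expOn_of {X : Type} [TopologicalSpace X] {A : Set X} (h : ∀ f : C(A, Circle), IsExp f) :
    ExpOn A := by
  intro k hk
  obtain ⟨u, hu⟩ := h ⟨A.restrict k, continuousOn_iff_continuous_restrict.1 hk⟩
  obtain ⟨v, h1, h2⟩ := continuousOn_ext (u : A → ℝ) 0 (S := univ) u.continuous.continuousOn
  rw [image_univ, Subtype.range_coe] at h1
  refine ⟨v, h1, fun x hx => ?_⟩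
  rw [show v x = u ⟨x, hx⟩ from h2 ⟨x, hx⟩, ← hu]
  rfl

theorem splOn_of_spl {X : Type} [TopologicalSpace X] {A : Set X} (h : Spl A) {U V : Set X}
    (hU : IsClosed U) (hV : IsClosed V) (hUV : U ∪ V = univ) {f : X → Circle}
    (hf : ContinuousOn f (U ∩ V)) : SplOn U V f A := by
  obtain ⟨g, k, h1, h2, h3⟩ := h (Subtype.val ⁻¹' U) (Subtype.val ⁻¹' V)
    (hU.preimage continuous_subtype_val) (hV.preimage continuous_subtype_val)
    (by rw [← preimage_union, hUV, preimage_univ]) (f ∘ Subtype.val)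
    (hf.comp continuous_subtype_val.continuousOn fun x hx => hx)
  obtain ⟨g', h4, h5⟩ := continuousOn_ext g 1 h1
  obtain ⟨k', h6, h7⟩ := continuousOn_ext k 1 h2
  rw [inter_univ, Subtype.image_preimage_coe, inter_comm] at h4 h6
  refine ⟨g', k', h4, h6, fun x hx => ?_⟩
  rw [show g' x = g ⟨x, hx.2⟩ from h5 ⟨x, hx.2⟩, show k' x = k ⟨x, hx.2⟩ from h7 ⟨x, hx.2⟩]
  exact h3 ⟨x, hx.2⟩ ⟨hx.1, trivial⟩

theorem spl_retract {X A : Type} [TopologicalSpace X] [TopologicalSpace A] (i : C(A, X))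
    (r : C(X, A)) (h : ∀ a, r (i a) = a) (hX : Spl X) : Spl A := by
  intro U V hU hV hUV f hf
  obtain ⟨g, k, h1, h2, h3⟩ := hX (r ⁻¹' U) (r ⁻¹' V) (hU.preimage r.continuous)
    (hV.preimage r.continuous) (by rw [← preimage_union, hUV, preimage_univ]) (f ∘ r)
    (hf.comp r.continuous.continuousOn fun x hx => hx)
  refine ⟨g ∘ i, k ∘ i, h1.comp i.continuous.continuousOn fun x hx => ?_,
    h2.comp i.continuous.continuousOn fun x hx => ?_, fun x hx => ?_⟩
  · exact ⟨by show r (i x) ∈ U; rw [h]; exact hx.1, trivial⟩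
  · exact ⟨by show r (i x) ∈ V; rw [h]; exact hx.1, trivial⟩
  · have := h3 (i x) ⟨⟨by show r (i x) ∈ U; rw [h]; exact hx.1.1,
      by show r (i x) ∈ V; rw [h]; exact hx.1.2⟩, trivial⟩
    simpa [h] using this

theorem tietze_on {X : Type} [TopologicalSpace X] [NormalSpace X] {A : Set X} (hA : IsClosed A)
    {u : X → ℝ} (hu : ContinuousOn u A) : ∃ v : C(X, ℝ), ∀ x ∈ A, v x = u x := by
  obtain ⟨v, hv⟩ := ContinuousMap.exists_restrict_eq hA
    ⟨A.restrict u, continuousOn_iff_continuous_restrict.1 hu⟩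
  exact ⟨v, fun x hx => congrArg (fun w : C(A, ℝ) => w ⟨x, hx⟩) hv⟩

theorem tietze_onC {X : Type} [TopologicalSpace X] [NormalSpace X] {A : Set X} (hA : IsClosed A)
    {u : X → ℂ} (hu : ContinuousOn u A) : ∃ v : C(X, ℂ), ∀ x ∈ A, v x = u x := by
  obtain ⟨v, hv⟩ := ContinuousMap.exists_restrict_eq hA
    ⟨A.restrict u, continuousOn_iff_continuous_restrict.1 hu⟩
  exact ⟨v, fun x hx => congrArg (fun w : C(A, ℂ) => w ⟨x, hx⟩) hv⟩

theorem splOn_union {X : Type} [TopologicalSpace X] [NormalSpace X] {U V A B : Set X}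
    (hU : IsClosed U) (hV : IsClosed V) (hUV : U ∪ V = univ) (hA : IsClosed A) (hB : IsClosed B)
    (hE : ExpOn (A ∩ B)) {f : X → Circle} (sA : SplOn U V f A) (sB : SplOn U V f B) :
    SplOn U V f (A ∪ B) := by
  classical
  obtain ⟨g, h, g1, h1, e1⟩ := sA
  obtain ⟨g', h', g2, h2, e2⟩ := sB
  have hV' : ∀ x, x ∉ U → x ∈ V := fun x hx => by
    have : x ∈ U ∪ V := by rw [hUV]; trivial
    exact this.resolve_left hx
  have key : ∀ x ∈ U ∩ V, x ∈ A ∩ B → g x * (g' x)⁻¹ = h' x * (h x)⁻¹ := by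
    intro x hx hx'
    have a := e1 x ⟨hx, hx'.1⟩
    have b := e2 x ⟨hx, hx'.2⟩
    rw [a] at b
    rw [mul_inv_eq_iff_eq_mul, mul_right_comm, eq_mul_inv_iff_mul_eq, b, mul_comm]
  let k : X → Circle := fun x => if x ∈ U then g x * (g' x)⁻¹ else h' x * (h x)⁻¹
  have kU : ∀ x ∈ U, k x = g x * (g' x)⁻¹ := fun x hx => by simp [k, hx]
  have kV : ∀ x ∈ V, x ∈ A ∩ B → k x = h' x * (h x)⁻¹ := fun x hx hx' => by
    by_cases hxU : x ∈ U
    · rw [kU x hxU, key x ⟨hxU, hx⟩ hx']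
    · simp [k, hxU]
  have kc : ContinuousOn k (A ∩ B) := by
    have c1 : ContinuousOn k (U ∩ (A ∩ B)) := by
      have : ContinuousOn (fun x => g x * (g' x)⁻¹) (U ∩ (A ∩ B)) :=
        (g1.mono fun x hx => ⟨hx.1, hx.2.1⟩).mul (g2.mono fun x hx => ⟨hx.1, hx.2.2⟩).inv
      exact this.congr fun x hx => kU x hx.1
    have c2 : ContinuousOn k (V ∩ (A ∩ B)) := by
      have : ContinuousOn (fun x => h' x * (h x)⁻¹) (V ∩ (A ∩ B)) :=
        (h2.mono fun x hx => ⟨hx.1, hx.2.2⟩).mul (h1.mono fun x hx => ⟨hx.1, hx.2.1⟩).inv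
      exact this.congr fun x hx => kV x hx.1 hx.2
    have := c1.union_of_isClosed c2 (hU.inter (hA.inter hB)) (hV.inter (hA.inter hB))
    rwa [← union_inter_distrib_right, hUV, univ_inter] at this
  obtain ⟨u, uc, hu⟩ := hE k kc
  obtain ⟨v, hv⟩ := tietze_on (hA.inter hB) uc
  have hkv : ∀ x ∈ A ∩ B, k x = Circle.exp (v x) := fun x hx => by rw [hu x hx, hv x hx]
  let G : X → Circle := fun x => if x ∈ A then g x else g' x * Circle.exp (v x)
  let H : X → Circle := fun x => if x ∈ A then h x else h' x * (Circle.exp (v x))⁻¹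
  have GA : ∀ x ∈ A, G x = g x := fun x hx => by simp [G, hx]
  have HA : ∀ x ∈ A, H x = h x := fun x hx => by simp [H, hx]
  have GB : ∀ x ∈ U, x ∈ B → G x = g' x * Circle.exp (v x) := fun x hx hx' => by
    by_cases hxA : x ∈ A
    · rw [GA x hxA, ← hkv x ⟨hxA, hx'⟩, kU x hx, mul_comm (g x), mul_inv_cancel_left]
    · simp [G, hxA]
  have HB : ∀ x ∈ V, x ∈ B → H x = h' x * (Circle.exp (v x))⁻¹ := fun x hx hx' => by
    by_cases hxA : x ∈ A
    · rw [HA x hxA, ← hkv x ⟨hxA, hx'⟩, kV x hx ⟨hxA, hx'⟩, mul_inv, inv_inv,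
        mul_inv_cancel_left]
    · simp [H, hxA]
  refine ⟨G, H, ?_, ?_, ?_⟩
  · have c1 : ContinuousOn G (U ∩ A) := g1.congr fun x hx => GA x hx.2
    have c2 : ContinuousOn G (U ∩ B) := by
      have : ContinuousOn (fun x => g' x * Circle.exp (v x)) (U ∩ B) :=
        g2.mul (by fun_prop)
      exact this.congr fun x hx => GB x hx.1 hx.2
    have := c1.union_of_isClosed c2 (hU.inter hA) (hU.inter hB)
    rwa [← inter_union_distrib_left] at this
  · have c1 : ContinuousOn H (V ∩ A) := h1.congr fun x hx => HA x hx.2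
    have c2 : ContinuousOn H (V ∩ B) := by
      have : ContinuousOn (fun x => h' x * (Circle.exp (v x))⁻¹) (V ∩ B) :=
        h2.mul (by fun_prop)
      exact this.congr fun x hx => HB x hx.1 hx.2
    have := c1.union_of_isClosed c2 (hV.inter hA) (hV.inter hB)
    rwa [← inter_union_distrib_left] at this
  · rintro x ⟨hx, hx' | hx'⟩
    · rw [GA x hx', HA x hx', e1 x ⟨hx, hx'⟩]
    · rw [GB x hx.1 hx', HB x hx.2 hx', e2 x ⟨hx, hx'⟩]
      rw [mul_mul_mul_comm, mul_inv_cancel, mul_one]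

/-! ### locally finite disjoint unions -/

theorem exists_glue_iUnion {X Y ι : Type} [TopologicalSpace X] [TopologicalSpace Y] (y : Y)
    {A : ι → Set X} (hLF : LocallyFinite A) (hcl : ∀ i, IsClosed (A i))
    (hd : ∀ i j, ∀ x ∈ A i, x ∈ A j → i = j) (g : ι → X → Y) :
    ∃ G : X → Y, (∀ i, ∀ x ∈ A i, G x = g i x) ∧
      ∀ S : Set X, IsClosed S → (∀ i, ContinuousOn (g i) (S ∩ A i)) →
        ContinuousOn G (S ∩ ⋃ i, A i) := by
  classical
  let G : X → Y := fun x => if h : ∃ i, x ∈ A i then g h.choose x else y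
  have hG : ∀ i, ∀ x ∈ A i, G x = g i x := by
    intro i x hx
    have h : ∃ i, x ∈ A i := ⟨i, hx⟩
    have h2 : h.choose = i := hd _ _ x h.choose_spec hx
    simp only [G, dif_pos h, h2]
  refine ⟨G, hG, fun S hS hg => ?_⟩
  rw [inter_iUnion]
  apply LocallyFinite.continuousOn_iUnion
  · exact hLF.subset fun i => inter_subset_right
  · exact fun i => hS.inter (hcl i)
  · exact fun i => (hg i).congr fun x hx => hG i x hx.2

theorem splOn_iUnion {X ι : Type} [TopologicalSpace X] {U V : Set X} (hU : IsClosed U)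
    (hV : IsClosed V) {f : X → Circle} {A : ι → Set X} (hLF : LocallyFinite A)
    (hcl : ∀ i, IsClosed (A i)) (hd : ∀ i j, ∀ x ∈ A i, x ∈ A j → i = j)
    (h : ∀ i, SplOn U V f (A i)) : SplOn U V f (⋃ i, A i) := by
  choose g k hg hk hf using h
  obtain ⟨G, G1, G2⟩ := exists_glue_iUnion (1 : Circle) hLF hcl hd g
  obtain ⟨K, K1, K2⟩ := exists_glue_iUnion (1 : Circle) hLF hcl hd k
  refine ⟨G, K, G2 U hU hg, K2 V hV hk, ?_⟩
  rintro x ⟨hx, hx'⟩
  obtain ⟨i, hi⟩ := mem_iUnion.1 hx'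
  rw [G1 i x hi, K1 i x hi]
  exact hf i x ⟨hx, hi⟩

theorem expOn_iUnion {X ι : Type} [TopologicalSpace X] {A : ι → Set X} (hLF : LocallyFinite A)
    (hcl : ∀ i, IsClosed (A i)) (hd : ∀ i j, ∀ x ∈ A i, x ∈ A j → i = j)
    (h : ∀ i, ExpOn (A i)) : ExpOn (⋃ i, A i) := by
  intro k hk
  have h' : ∀ i, ∃ u : X → ℝ, ContinuousOn u (A i) ∧ ∀ x ∈ A i, k x = Circle.exp (u x) :=
    fun i => h i k (hk.mono (subset_iUnion A i))
  choose u hu hu' using h'
  obtain ⟨G, G1, G2⟩ := exists_glue_iUnion (0 : ℝ) hLF hcl hd u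
  have := G2 univ isClosed_univ (fun i => by rw [univ_inter]; exact hu i)
  rw [univ_inter] at this
  refine ⟨G, this, fun x hx => ?_⟩
  obtain ⟨i, hi⟩ := mem_iUnion.1 hx
  rw [G1 i x hi, hu' i x hi]

/-! ### slabs -/

/-- the direction of a nonzero complex number -/
def dirC69 (z : ℂ) : Circle := Circle.exp (Complex.arg z)

theorem coe_dirC69 {z : ℂ} (hz : z ≠ 0) : (dirC69 z : ℂ) = z / ‖z‖ := by
  unfold dirC69
  rw [Circle.coe_exp]
  have h := Complex.norm_mul_exp_arg_mul_I z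
  have hn : (‖z‖ : ℂ) ≠ 0 := by exact_mod_cast (norm_ne_zero_iff.2 hz)
  rw [eq_div_iff hn, mul_comm]
  exact h

theorem dirC_coe (c : Circle) : dirC69 (c : ℂ) = c := Circle.exp_arg c

theorem isInducing_coeCircle : IsInducing (fun c : Circle => (c : ℂ)) := ⟨rfl⟩

theorem continuousOn_dirC : ContinuousOn dirC69 {z | z ≠ 0} := by
  rw [isInducing_coeCircle.continuousOn_iff]
  have : ContinuousOn (fun z : ℂ => z / ‖z‖) {z | z ≠ 0} := by
    apply ContinuousOn.div continuousOn_id (by fun_prop)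
    intro z hz
    exact_mod_cast (norm_ne_zero_iff.2 hz)
  exact this.congr fun z hz => coe_dirC69 hz

theorem exists_gap {Z : Type} [TopologicalSpace Z] [CompactSpace Z] {W : Set (ℝ × Z)}
    (hW : IsClosed W) (t₀ : ℝ) (h : ∀ x ∈ W, x.1 ≠ t₀) :
    ∃ ε > 0, ∀ x ∈ W, ε < |x.1 - t₀| := by
  have hc : IsClosed (Prod.fst '' W) := isClosedMap_fst_of_compactSpace _ hW
  have hmem : (Prod.fst '' W)ᶜ ∈ 𝓝 t₀ := by
    apply hc.isOpen_compl.mem_nhds
    rintro ⟨x, hx, hx'⟩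
    exact h x hx hx'
  obtain ⟨ε, hε, hb⟩ := Metric.mem_nhds_iff.1 hmem
  refine ⟨ε / 2, by positivity, fun x hx => ?_⟩
  by_contra hcon
  push Not at hcon
  have : x.1 ∈ Metric.ball t₀ ε := by
    rw [Metric.mem_ball, Real.dist_eq]
    linarith
  exact hb this ⟨x, hx, rfl⟩

variable {Z : Type} [MetricSpace Z] [CompactSpace Z]

theorem spl_local (hZ : Spl Z) {U V : Set (ℝ × Z)} (hU : IsClosed U) (hV : IsClosed V)
    (hUV : U ∪ V = univ) {f : ℝ × Z → Circle} (hf : ContinuousOn f (U ∩ V)) (t₀ : ℝ) :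
    ∃ ε > 0, SplOn U V f (Icc (t₀ - ε) (t₀ + ε) ×ˢ univ) := by
  have hs : Continuous fun z : Z => ((t₀, z) : ℝ × Z) := by fun_prop
  obtain ⟨g₀, h₀, hg₀, hh₀, he₀⟩ := hZ _ _ (hU.preimage hs) (hV.preimage hs)
    (by rw [← preimage_union, hUV, preimage_univ]) (fun z => f (t₀, z))
    (hf.comp hs.continuousOn fun x hx => hx)
  rw [inter_univ] at hg₀ hh₀
  obtain ⟨G, hG⟩ := tietze_onC (u := fun z => (g₀ z : ℂ)) (hU.preimage hs)
    (continuous_subtype_val.comp_continuousOn hg₀)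
  obtain ⟨H, hH⟩ := tietze_onC (u := fun z => (h₀ z : ℂ)) (hV.preimage hs)
    (continuous_subtype_val.comp_continuousOn hh₀)
  have hw1 : IsClosed (U ∩ {x | G x.2 = 0}) :=
    hU.inter (isClosed_eq (G.continuous.comp continuous_snd) continuous_const)
  have hw2 : IsClosed (V ∩ {x | H x.2 = 0}) :=
    hV.inter (isClosed_eq (H.continuous.comp continuous_snd) continuous_const)
  obtain ⟨ε₁, hε₁, w1⟩ := exists_gap hw1 t₀ (by
    rintro ⟨t, z⟩ ⟨h1, h2⟩ h3
    simp only at h3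
    subst h3
    have h4 : G z = 0 := h2
    rw [hG z h1] at h4
    exact Circle.coe_ne_zero _ h4)
  obtain ⟨ε₂, hε₂, w2⟩ := exists_gap hw2 t₀ (by
    rintro ⟨t, z⟩ ⟨h1, h2⟩ h3
    simp only at h3
    subst h3
    have h4 : H z = 0 := h2
    rw [hH z h1] at h4
    exact Circle.coe_ne_zero _ h4)
  set ε₃ := min ε₁ ε₂ with hε₃
  set S : Set (ℝ × Z) := {x | |x.1 - t₀| ≤ ε₃} with hS
  have hScl : IsClosed S := isClosed_le (by fun_prop) continuous_const
  have cg : ContinuousOn (fun x : ℝ × Z => dirC69 (G x.2)) (U ∩ S) := by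
    apply continuousOn_dirC.comp (G.continuous.comp continuous_snd).continuousOn
    intro x hx h0
    have := w1 x ⟨hx.1, h0⟩
    have h2 : |x.1 - t₀| ≤ ε₃ := hx.2
    linarith [min_le_left ε₁ ε₂]
  have ch : ContinuousOn (fun x : ℝ × Z => dirC69 (H x.2)) (V ∩ S) := by
    apply continuousOn_dirC.comp (H.continuous.comp continuous_snd).continuousOn
    intro x hx h0
    have := w2 x ⟨hx.1, h0⟩
    have h2 : |x.1 - t₀| ≤ ε₃ := hx.2
    linarith [min_le_right ε₁ ε₂]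
  set k : ℝ × Z → Circle := fun x => f x * (dirC69 (G x.2) * dirC69 (H x.2))⁻¹ with hk
  have ck : ContinuousOn k (U ∩ V ∩ S) :=
    (hf.mono inter_subset_left).mul ((cg.mono fun x hx => ⟨hx.1.1, hx.2⟩).mul
      (ch.mono fun x hx => ⟨hx.1.2, hx.2⟩)).inv
  have hk1 : ∀ z, (t₀, z) ∈ U ∩ V → k (t₀, z) = 1 := by
    intro z hz
    show f (t₀, z) * (dirC69 (G z) * dirC69 (H z))⁻¹ = 1
    have h5 : f (t₀, z) = g₀ z * h₀ z := he₀ z ⟨hz, trivial⟩
    rw [hG z hz.1, hH z hz.2, dirC_coe, dirC_coe, h5, mul_inv_cancel]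
  have hw3 : IsClosed ((U ∩ V ∩ S) ∩ k ⁻¹' {c : Circle | (c : ℂ).re ≤ 0}) := by
    apply ck.preimage_isClosed_of_isClosed ((hU.inter hV).inter hScl)
    exact isClosed_le (Complex.continuous_re.comp continuous_subtype_val) continuous_const
  obtain ⟨ε₄, hε₄, w3⟩ := exists_gap hw3 t₀ (by
    rintro ⟨t, z⟩ ⟨h1, h2⟩ h3
    simp only at h3
    subst h3
    have h4 : ((k (t, z) : Circle) : ℂ).re ≤ 0 := h2
    rw [hk1 z h1.1] at h4
    norm_num at h4)
  refine ⟨min ε₃ ε₄, lt_min (lt_min hε₁ hε₂) hε₄, ?_⟩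
  set S' : Set (ℝ × Z) := Icc (t₀ - min ε₃ ε₄) (t₀ + min ε₃ ε₄) ×ˢ univ with hS'
  have hS'S : ∀ x ∈ S', x ∈ S ∧ |x.1 - t₀| ≤ ε₄ := by
    intro x hx
    have h1 : |x.1 - t₀| ≤ min ε₃ ε₄ := by
      rw [abs_le]
      constructor <;> linarith [hx.1.1, hx.1.2]
    exact ⟨h1.trans (min_le_left _ _), h1.trans (min_le_right _ _)⟩
  have hS'cl : IsClosed S' := isClosed_Icc.prod isClosed_univ
  have hpos : ∀ x ∈ U ∩ V ∩ S', 0 < ((k x : Circle) : ℂ).re := by
    intro x hx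
    by_contra hcon
    push Not at hcon
    have := w3 x ⟨⟨hx.1, (hS'S x hx.2).1⟩, hcon⟩
    linarith [(hS'S x hx.2).2]
  have ca : ContinuousOn (fun x => Complex.arg (k x)) (U ∩ V ∩ S') := by
    intro x hx
    have h1 : ContinuousAt Complex.arg (k x : ℂ) :=
      Complex.continuousAt_arg (Or.inl (hpos x hx))
    have h2 : ContinuousOn (fun x => ((k x : Circle) : ℂ)) (U ∩ V ∩ S') :=
      isInducing_coeCircle.continuous.comp_continuousOn
        (ck.mono fun y hy => ⟨hy.1, (hS'S y hy.2).1⟩)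
    exact ContinuousAt.comp_continuousWithinAt (f := fun x => ((k x : Circle) : ℂ)) h1 (h2 x hx)
  obtain ⟨v, hv⟩ := tietze_on ((hU.inter hV).inter hS'cl) ca
  refine ⟨fun x => dirC69 (G x.2) * Circle.exp (v x), fun x => dirC69 (H x.2), ?_, ?_, ?_⟩
  · exact (cg.mono fun x hx => ⟨hx.1, (hS'S x hx.2).1⟩).mul (by fun_prop)
  · exact ch.mono fun x hx => ⟨hx.1, (hS'S x hx.2).1⟩
  · intro x hx
    show f x = dirC69 (G x.2) * Circle.exp (v x) * dirC69 (H x.2)
    rw [hv x hx, Circle.exp_arg]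
    simp only [hk]
    rw [mul_right_comm, mul_comm, mul_assoc, inv_mul_cancel, mul_one]

theorem expOn_slice (hE : ∀ f : C(Z, Circle), IsExp f) (t : ℝ) :
    ExpOn (({t} : Set ℝ) ×ˢ (univ : Set Z)) := by
  intro k hk
  obtain ⟨u, hu⟩ := hE ⟨fun z => k (t, z), by
    rw [← continuousOn_univ]
    exact hk.comp (by fun_prop) fun z _ => ⟨rfl, trivial⟩⟩
  refine ⟨fun x => u x.2, by fun_prop, ?_⟩
  rintro ⟨s, z⟩ ⟨hs, -⟩
  have : s = t := hs
  subst this
  exact hu z

theorem spl_Icc (hZ : Spl Z) (hE : ∀ f : C(Z, Circle), IsExp f) {U V : Set (ℝ × Z)}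
    (hU : IsClosed U) (hV : IsClosed V) (hUV : U ∪ V = univ) {f : ℝ × Z → Circle}
    (hf : ContinuousOn f (U ∩ V)) {a b : ℝ} (hab : a ≤ b) :
    SplOn U V f (Icc a b ×ˢ univ) := by
  choose ε hε hs using fun t₀ => spl_local hZ hU hV hUV hf t₀
  obtain ⟨t, t0, tmono, ⟨m, hm⟩, hc⟩ := exists_monotone_Icc_subset_open_cover_Icc hab
    (c := fun s : Icc a b => {x : Icc a b | |(x : ℝ) - s| < ε s})
    (fun s => isOpen_lt (by fun_prop) continuous_const)
    (fun x _ => mem_iUnion.2 ⟨x, by simpa using hε x⟩)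
  have key : ∀ n, SplOn U V f (Icc a (t n) ×ˢ univ) := by
    intro n
    induction n with
    | zero =>
      rw [t0]
      apply (hs a).mono
      apply prod_mono_left
      intro x hx
      constructor <;> linarith [hx.1, hx.2, hε a]
    | succ n ih =>
      have h1 : (Icc a (t (n + 1) : ℝ) ×ˢ (univ : Set Z)) =
          Icc a (t n : ℝ) ×ˢ univ ∪ Icc (t n : ℝ) (t (n + 1) : ℝ) ×ˢ univ := by
        rw [← union_prod, Icc_union_Icc_eq_Icc (t n).2.1 (tmono (Nat.le_succ n))]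
      rw [h1]
      apply splOn_union hU hV hUV (isClosed_Icc.prod isClosed_univ)
        (isClosed_Icc.prod isClosed_univ) ?_ ih ?_
      · have h2 : Icc a (t n : ℝ) ×ˢ (univ : Set Z) ∩ Icc (t n : ℝ) (t (n + 1) : ℝ) ×ˢ univ =
            ({(t n : ℝ)} : Set ℝ) ×ˢ (univ : Set Z) := by
          rw [prod_inter_prod, univ_inter]
          congr 1
          ext x
          simp only [mem_inter_iff, mem_Icc, mem_singleton_iff]
          constructor
          · rintro ⟨h3, h4⟩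
            linarith [h3.2, h4.1]
          · rintro rfl
            exact ⟨⟨(t n).2.1, le_rfl⟩, le_rfl, tmono (Nat.le_succ n)⟩
        rw [h2]
        exact expOn_slice hE _
      · obtain ⟨s, hs'⟩ := hc n
        apply (hs s).mono
        apply prod_mono_left
        intro x hx
        have hx' : (⟨x, (t n).2.1.trans hx.1, hx.2.trans (t (n + 1)).2.2⟩ : Icc a b) ∈
            Icc (t n) (t (n + 1)) := ⟨hx.1, hx.2⟩
        have h3 : |x - s| < ε s := hs' hx'
        rw [abs_lt] at h3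
        constructor <;> linarith [h3.1, h3.2]
  have := key m
  rwa [hm m le_rfl] at this

theorem locallyFinite_of_le {A : ℤ → Set (ℝ × Z)}
    (h : ∀ i, ∀ x ∈ A i, |(i : ℝ)| ≤ |x.1| + 2) : LocallyFinite A := by
  intro x
  refine ⟨{y | |y.1| < |x.1| + 1}, ?_, ?_⟩
  · exact (isOpen_lt (by fun_prop) continuous_const).mem_nhds (by simp)
  · apply (Set.finite_Icc (-⌈|x.1| + 3⌉) ⌈|x.1| + 3⌉).subset
    rintro i ⟨y, hy, hy'⟩
    have h1 : |(i : ℝ)| ≤ |x.1| + 3 := by
      have := h i y hy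
      have h2 : |y.1| < |x.1| + 1 := hy'
      linarith
    have h2 : |(i : ℝ)| ≤ ⌈|x.1| + 3⌉ := h1.trans (Int.le_ceil _)
    rw [abs_le] at h2
    constructor
    · have := h2.1
      exact_mod_cast this
    · have := h2.2
      exact_mod_cast this

theorem spl_line (hZ : Spl Z) (hE : ∀ f : C(Z, Circle), IsExp f) : Spl (ℝ × Z) := by
  intro U V hU hV hUV f hf
  let A : ℤ → Set (ℝ × Z) := fun i => Icc (2 * i : ℝ) (2 * i + 1) ×ˢ univ
  let B : ℤ → Set (ℝ × Z) := fun i => Icc (2 * i + 1 : ℝ) (2 * i + 2) ×ˢ univ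
  let D : ℤ → Set (ℝ × Z) := fun i => ({(i : ℝ)} : Set ℝ) ×ˢ univ
  have hAle : ∀ i, ∀ x ∈ A i, |(i : ℝ)| ≤ |x.1| + 2 := by
    intro i x hx
    have h1 : (2 * i : ℝ) ≤ x.1 := hx.1.1
    have h2 : x.1 ≤ 2 * i + 1 := hx.1.2
    rcases abs_cases x.1 with h | h <;> rcases abs_cases (i : ℝ) with h' | h' <;> linarith
  have hBle : ∀ i, ∀ x ∈ B i, |(i : ℝ)| ≤ |x.1| + 2 := by
    intro i x hx
    have h1 : (2 * i + 1 : ℝ) ≤ x.1 := hx.1.1
    have h2 : x.1 ≤ 2 * i + 2 := hx.1.2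
    rcases abs_cases x.1 with h | h <;> rcases abs_cases (i : ℝ) with h' | h' <;> linarith
  have hDle : ∀ i, ∀ x ∈ D i, |(i : ℝ)| ≤ |x.1| + 2 := by
    intro i x hx
    have h1 : x.1 = i := hx.1
    rw [h1]
    linarith
  have sA : SplOn U V f (⋃ i, A i) := by
    apply splOn_iUnion hU hV (locallyFinite_of_le hAle)
      (fun i => isClosed_Icc.prod isClosed_univ)
    · intro i j x hi hj
      have h1 : (2 * i : ℝ) ≤ x.1 := hi.1.1
      have h2 : x.1 ≤ 2 * i + 1 := hi.1.2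
      have h3 : (2 * j : ℝ) ≤ x.1 := hj.1.1
      have h4 : x.1 ≤ 2 * j + 1 := hj.1.2
      have h5 : (2 * i : ℝ) ≤ 2 * j + 1 := h1.trans h4
      have h6 : (2 * j : ℝ) ≤ 2 * i + 1 := h3.trans h2
      have h7 : 2 * i ≤ 2 * j + 1 := by exact_mod_cast h5
      have h8 : 2 * j ≤ 2 * i + 1 := by exact_mod_cast h6
      omega
    · exact fun i => spl_Icc hZ hE hU hV hUV hf (by linarith)
  have sB : SplOn U V f (⋃ i, B i) := by
    apply splOn_iUnion hU hV (locallyFinite_of_le hBle)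
      (fun i => isClosed_Icc.prod isClosed_univ)
    · intro i j x hi hj
      have h1 : (2 * i + 1 : ℝ) ≤ x.1 := hi.1.1
      have h2 : x.1 ≤ 2 * i + 2 := hi.1.2
      have h3 : (2 * j + 1 : ℝ) ≤ x.1 := hj.1.1
      have h4 : x.1 ≤ 2 * j + 2 := hj.1.2
      have h5 : (2 * i + 1 : ℝ) ≤ 2 * j + 2 := h1.trans h4
      have h6 : (2 * j + 1 : ℝ) ≤ 2 * i + 2 := h3.trans h2
      have h7 : 2 * i + 1 ≤ 2 * j + 2 := by exact_mod_cast h5
      have h8 : 2 * j + 1 ≤ 2 * i + 2 := by exact_mod_cast h6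
      omega
    · exact fun i => spl_Icc hZ hE hU hV hUV hf (by linarith)
  have hAB : (⋃ i, A i) ∪ (⋃ i, B i) = univ := by
    rw [eq_univ_iff_forall]
    intro x
    have h1 : (⌊x.1⌋ : ℝ) ≤ x.1 := Int.floor_le _
    have h2 : x.1 < ⌊x.1⌋ + 1 := Int.lt_floor_add_one _
    rcases Int.even_or_odd' ⌊x.1⌋ with ⟨m, hm | hm⟩
    · left
      refine mem_iUnion.2 ⟨m, ⟨?_, ?_⟩, trivial⟩
      · rw [hm] at h1
        push_cast at h1
        exact h1
      · rw [hm] at h2
        push_cast at h2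
        exact h2.le
    · right
      refine mem_iUnion.2 ⟨m, ⟨?_, ?_⟩, trivial⟩
      · rw [hm] at h1
        push_cast at h1
        exact h1
      · rw [hm] at h2
        push_cast at h2
        linarith
  have hABi : (⋃ i, A i) ∩ (⋃ i, B i) = ⋃ i, D i := by
    ext x
    simp only [mem_inter_iff, mem_iUnion]
    constructor
    · rintro ⟨⟨i, hi⟩, ⟨j, hj⟩⟩
      have h1 : (2 * i : ℝ) ≤ x.1 := hi.1.1
      have h2 : x.1 ≤ 2 * i + 1 := hi.1.2
      have h3 : (2 * j + 1 : ℝ) ≤ x.1 := hj.1.1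
      have h4 : x.1 ≤ 2 * j + 2 := hj.1.2
      rcases le_or_gt i j with hij | hij
      · have h5 : (i : ℝ) ≤ j := by exact_mod_cast hij
        refine ⟨2 * i + 1, ?_, trivial⟩
        show x.1 = ((2 * i + 1 : ℤ) : ℝ)
        push_cast
        linarith
      · have h5 : (j + 1 : ℝ) ≤ i := by exact_mod_cast hij
        refine ⟨2 * i, ?_, trivial⟩
        show x.1 = ((2 * i : ℤ) : ℝ)
        push_cast
        linarith
    · rintro ⟨n, hn, -⟩
      have hn' : x.1 = n := hn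
      rcases Int.even_or_odd' n with ⟨m, hm | hm⟩
      · have h6 : x.1 = 2 * m := by rw [hn', hm]; push_cast; ring
        refine ⟨⟨m, ⟨?_, ?_⟩, trivial⟩, ⟨m - 1, ⟨?_, ?_⟩, trivial⟩⟩
        · show (2 * m : ℝ) ≤ x.1
          linarith
        · show x.1 ≤ (2 * m + 1 : ℝ)
          linarith
        · show (2 * ((m - 1 : ℤ) : ℝ) + 1 : ℝ) ≤ x.1
          push_cast; linarith
        · show x.1 ≤ (2 * ((m - 1 : ℤ) : ℝ) + 2 : ℝ)
          push_cast; linarith
      · have h6 : x.1 = 2 * m + 1 := by rw [hn', hm]; push_cast; ring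
        refine ⟨⟨m, ⟨?_, ?_⟩, trivial⟩, ⟨m, ⟨?_, ?_⟩, trivial⟩⟩
        · show (2 * m : ℝ) ≤ x.1
          linarith
        · show x.1 ≤ (2 * m + 1 : ℝ)
          linarith
        · show (2 * m + 1 : ℝ) ≤ x.1
          linarith
        · show x.1 ≤ (2 * m + 2 : ℝ)
          linarith
  rw [← hAB]
  apply splOn_union hU hV hUV ((locallyFinite_of_le hAle).isClosed_iUnion
      fun i => isClosed_Icc.prod isClosed_univ) ((locallyFinite_of_le hBle).isClosed_iUnion
      fun i => isClosed_Icc.prod isClosed_univ) ?_ sA sB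
  rw [hABi]
  apply expOn_iUnion (locallyFinite_of_le hDle) (fun i => isClosed_singleton.prod isClosed_univ)
  · intro i j x hi hj
    have h1 : x.1 = i := hi.1
    have h2 : x.1 = j := hj.1
    exact_mod_cast h1.symm.trans h2
  · exact fun i => expOn_slice hE _

end Pool.Agent.S1S3
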